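import Pool.Agent.H7.PL.L13

set_option autoImplicit false
open MeasureTheory Metric Filter
open scoped ComplexConjugate ENNReal Topology

/-! General local factors. -/

namespace Pool.Agent.H7.DG

open Pool.Agent.Helper873.OneVar Pool.Agent.Helper873.Product Pool.Agent.Helper873.Embed
  Pool.Agent.Helper873.Monomial Pool.Agent.H7.PM Pool.Agent.H7.PL

/-- a local factor: the values at the powers of the primes -/
class LF where
  /-- the values -/
  g : ℕ → ℝ
  g0 : g 0 = 1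
  g1 : 0 < g 1
  nn : ∀ m, 0 ≤ g m
  anti : Antitone g

variable [LF]

lemma LF.le (m : ℕ) : LF.g m ≤ 1 := by
  rw [← LF.g0]
  exact LF.anti (Nat.zero_le m)

/-- the local factor -/
noncomputable def Gf (u : ℂ) : ℂ := ∑' m, (LF.g m : ℂ) * u ^ m

lemma norm_term (u : ℂ) (m : ℕ) : ‖(LF.g m : ℂ) * u ^ m‖ ≤ ‖u‖ ^ m := by
  rw [norm_mul, norm_pow, Complex.norm_real, Real.norm_of_nonneg (LF.nn m)]
  exact mul_le_of_le_one_left (by positivity) (LF.le m)

lemma summable_Gf {u : ℂ} (hu : ‖u‖ < 1) : Summable fun m => ‖(LF.g m : ℂ) * u ^ m‖ :=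
  Summable.of_nonneg_of_le (fun _ => norm_nonneg _) (norm_term u)
    (summable_geometric_of_lt_one (norm_nonneg _) hu)

lemma Gf_kak {u : ℂ} (hu : ‖u‖ < 1) : 0 < ((1 - u) * Gf u).re := by
  have hs : Summable fun m => (LF.g m : ℂ) * u ^ m := (summable_Gf hu).of_norm
  set d : ℕ → ℝ := fun m => LF.g m - LF.g (m + 1) with hd
  have hd0 : ∀ m, 0 ≤ d m := fun m => sub_nonneg.2 (LF.anti (Nat.le_succ m))
  have hds : ∀ n, ∑ m ∈ Finset.range n, d m ≤ 1 := by
    intro n
    simp only [hd]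
    rw [Finset.sum_range_sub', LF.g0]
    have := LF.nn n
    linarith
  have hdsum : Summable d := summable_of_sum_range_le hd0 hds
  have hd1 : ∑' m, d m ≤ 1 := Real.tsum_le_of_sum_range_le hd0 hds
  have h1 : Gf u = 1 + ∑' m, (LF.g (m + 1) : ℂ) * u ^ (m + 1) := by
    unfold Gf
    rw [hs.tsum_eq_zero_add]
    simp [LF.g0]
  have h2 : u * Gf u = ∑' m, (LF.g m : ℂ) * u ^ (m + 1) := by
    unfold Gf
    rw [← tsum_mul_left]
    exact tsum_congr fun m => by ring
  have hs1 : Summable fun m => (LF.g (m + 1) : ℂ) * u ^ (m + 1) :=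
    (summable_nat_add_iff (f := fun m => (LF.g m : ℂ) * u ^ m) 1).2 hs
  have hs2 : Summable fun m => (LF.g m : ℂ) * u ^ (m + 1) := by
    refine (hs.mul_left u).congr fun m => by ring
  have h3 : (1 - u) * Gf u = 1 - ∑' m, (d m : ℂ) * u ^ (m + 1) := by
    have e : (1 - u) * Gf u = Gf u - u * Gf u := by ring
    rw [e, h2, h1, add_sub_assoc, ← hs1.tsum_sub hs2, sub_eq_add_neg, ← tsum_neg]
    congr 1
    refine tsum_congr fun m => ?_
    simp only [hd]
    push_cast
    ring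
  have h4 : ‖∑' m, (d m : ℂ) * u ^ (m + 1)‖ ≤ ‖u‖ := by
    have h5 : HasSum (fun m => d m * ‖u‖) ((∑' m, d m) * ‖u‖) := hdsum.hasSum.mul_right _
    refine (tsum_of_norm_bounded h5 fun m => ?_).trans ?_
    · rw [norm_mul, norm_pow, Complex.norm_real, Real.norm_of_nonneg (hd0 m)]
      refine mul_le_mul_of_nonneg_left ?_ (hd0 m)
      rw [pow_succ]
      exact mul_le_of_le_one_left (norm_nonneg _) (pow_le_one₀ (norm_nonneg _) hu.le)
    · exact mul_le_of_le_one_left (norm_nonneg _) hd1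
  rw [h3, Complex.sub_re, Complex.one_re]
  have := (Complex.re_le_norm (∑' m, (d m : ℂ) * u ^ (m + 1))).trans h4
  linarith

lemma Gf_slit {u : ℂ} (hu : ‖u‖ < 1) : Gf u ∈ Complex.slitPlane := by
  have h1 := Gf_kak hu
  have h2 : 0 < (1 - u).re := by
    rw [Complex.sub_re, Complex.one_re]
    have := Complex.re_le_norm u
    linarith
  rw [Complex.mem_slitPlane_iff]
  by_contra hcon
  push Not at hcon
  obtain ⟨h3, h4⟩ := hcon
  rw [Complex.mul_re, h4, mul_zero, sub_zero] at h1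
  nlinarith


lemma Gf_ne {u : ℂ} (hu : ‖u‖ < 1) : Gf u ≠ 0 := Complex.slitPlane_ne_zero (Gf_slit hu)

lemma Gf_zero : Gf 0 = 1 := by
  unfold Gf
  rw [tsum_eq_single 0 (fun m hm => by simp [hm])]
  simp [LF.g0]

lemma diffAt_Gf {u : ℂ} (hu : ‖u‖ < 1) : DifferentiableAt ℂ Gf u := by
  obtain ⟨r, hr1, hr2⟩ := exists_between hu
  have hr0 : 0 ≤ r := (norm_nonneg _).trans hr1.le
  have h := Complex.differentiableOn_tsum_of_summable_norm (u := fun m : ℕ => r ^ m)
    (F := fun (m : ℕ) (u : ℂ) => (LF.g m : ℂ) * u ^ m) (U := ball 0 r)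
    (summable_geometric_of_lt_one hr0 hr2) (fun m => by fun_prop) isOpen_ball
    (fun m w hw => (norm_term w m).trans
      (pow_le_pow_left₀ (norm_nonneg _) (mem_ball_zero_iff.1 hw).le m))
  exact h.differentiableAt (isOpen_ball.mem_nhds (mem_ball_zero_iff.2 hr1))

lemma Gf_taylor {u : ℂ} (hu : ‖u‖ ≤ 1 / 2) : ‖Gf u - 1 - LF.g 1 * u‖ ≤ 2 * ‖u‖ ^ 2 := by
  have hu1 : ‖u‖ < 1 := by linarith
  have hs : Summable fun m => (LF.g m : ℂ) * u ^ m := (summable_Gf hu1).of_norm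
  have h := hs.sum_add_tsum_nat_add 2
  have e : Gf u - 1 - LF.g 1 * u = ∑' m, (LF.g (m + 2) : ℂ) * u ^ (m + 2) := by
    unfold Gf
    rw [← h]
    simp only [Finset.sum_range_succ, Finset.range_zero, Finset.sum_empty, LF.g0, pow_zero, pow_one,
      Complex.ofReal_one]
    ring
  rw [e]
  have hg : HasSum (fun m : ℕ => ‖u‖ ^ 2 * ‖u‖ ^ m) (‖u‖ ^ 2 * (1 - ‖u‖)⁻¹) :=
    (hasSum_geometric_of_lt_one (norm_nonneg _) hu1).mul_left _
  refine (tsum_of_norm_bounded hg fun m => (norm_term u (m + 2)).trans (le_of_eq (by ring))).trans ?_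
  rw [mul_comm]
  refine mul_le_mul_of_nonneg_right ?_ (by positivity)
  rw [inv_le_comm₀ (by linarith) (by norm_num)]
  linarith

lemma hasDeriv_Gf : HasDerivAt Gf (LF.g 1 : ℂ) 0 := by
  rw [hasDerivAt_iff_isLittleO_nhds_zero]
  have h1 : (fun h : ℂ => Gf (0 + h) - Gf 0 - h • (LF.g 1 : ℂ)) =O[𝓝 0] fun h : ℂ => h ^ 2 := by
    refine Asymptotics.IsBigO.of_bound 2 ?_
    filter_upwards [Metric.ball_mem_nhds (0 : ℂ) (show (0 : ℝ) < 1 / 2 by norm_num)] with u hu
    rw [Gf_zero, zero_add, smul_eq_mul, norm_pow, mul_comm u]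
    exact Gf_taylor (mem_ball_zero_iff.1 hu).le
  refine h1.trans_isLittleO ?_
  have h2 := Asymptotics.isLittleO_pow_id (𝕜 := ℂ) (n := 2) (by norm_num)
  simpa using h2

/-- the logarithm of the local factor -/
noncomputable def la (x z : ℂ) : ℂ := Complex.log (Gf (x * z))

lemma continuous_la_zet (x : ℂ) (hx : ‖x‖ < 1) :
    Continuous fun t : UnitAddCircle => la x (zet t) := by
  rw [continuous_iff_continuousAt]
  intro t
  have h1 : ‖x * zet t‖ < 1 := by rw [norm_mul, norm_zet, mul_one]; exact hx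
  have h2 : ContinuousAt (fun t : UnitAddCircle => x * zet t) t :=
    (continuous_const.mul continuous_zet).continuousAt
  unfold la
  exact ContinuousAt.clog (ContinuousAt.comp (f := fun t : UnitAddCircle => x * zet t) (g := Gf)
    (diffAt_Gf h1).continuousAt h2) (Gf_slit h1)

omit [LF] in
/-- mean values -/
lemma mean_value {φ : ℂ → ℂ} (hφ : ∀ u, ‖u‖ < 1 → DifferentiableAt ℂ φ u) {x : ℂ} (hx : ‖x‖ < 1) :
    ∫ t, φ (x * zet t) ∂cir = φ 0 := by
  have h1 := integral_zet fun ζ => φ (x * ζ)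
  have h2 : DiffContOnCl ℂ (fun ζ => φ (x * ζ)) (ball 0 |1|) := by
    refine DifferentiableOn.diffContOnCl fun ζ hζ => ?_
    rw [abs_one, closure_ball _ one_ne_zero, mem_closedBall_zero_iff] at hζ
    have h3 : ‖x * ζ‖ < 1 := by
      rw [norm_mul]
      exact lt_of_le_of_lt (mul_le_of_le_one_right (norm_nonneg _) hζ) hx
    refine DifferentiableAt.differentiableWithinAt ?_
    exact DifferentiableAt.comp (f := fun ζ => x * ζ) (g := φ) ζ (hφ _ h3) (by fun_prop)
  have h3 := h2.circleAverage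
  rw [mul_zero] at h3
  rw [← h3, ← h1]

/-- powers of the local factor -/
noncomputable def hk (κ : ℝ) (u : ℂ) : ℂ := Complex.exp (κ * Complex.log (Gf u))

lemma diffAt_hk (κ : ℝ) {u : ℂ} (hu : ‖u‖ < 1) : DifferentiableAt ℂ (hk κ) u :=
  (((diffAt_Gf hu).clog (Gf_slit hu)).const_mul _).cexp

lemma hk_zero (κ : ℝ) : hk κ 0 = 1 := by
  unfold hk
  rw [Gf_zero, Complex.log_one, mul_zero, Complex.exp_zero]

lemma hasDeriv_hk (κ : ℝ) : HasDerivAt (hk κ) ((κ * LF.g 1 : ℝ) : ℂ) 0 := by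
  have h1 := ((hasDeriv_Gf.clog (Gf_slit (by simp))).const_mul (κ : ℂ)).cexp
  rw [Gf_zero, Complex.log_one, mul_zero, Complex.exp_zero, one_mul, div_one] at h1
  rw [Complex.ofReal_mul]
  exact h1

lemma exists_F2 (κ : ℝ) : ∃ F : ℂ → ℂ, (∀ u, ‖u‖ < 1 → DifferentiableAt ℂ F u) ∧
    ∀ u, hk κ u = 1 + ((κ * LF.g 1 : ℝ) : ℂ) * u + u ^ 2 * F u := by
  set β : ℂ := ((κ * LF.g 1 : ℝ) : ℂ) with hβ
  set f : ℂ → ℂ := fun u => hk κ u - 1 - β * u with hf
  have hnb : ball (0 : ℂ) 1 ∈ 𝓝 (0 : ℂ) := isOpen_ball.mem_nhds (mem_ball_self one_pos)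
  have hfd : DifferentiableOn ℂ f (ball 0 1) := fun u hu =>
    (((diffAt_hk κ (mem_ball_zero_iff.1 hu)).sub_const _).sub
      (by fun_prop)).differentiableWithinAt
  have hf0 : f 0 = 0 := by simp [hf, hk_zero]
  have hfd0 : deriv f 0 = 0 := by
    have h1 : HasDerivAt f (β - β * 1) 0 :=
      ((hasDeriv_hk κ).sub_const 1).sub ((hasDerivAt_id (0 : ℂ)).const_mul β)
    rw [h1.deriv, mul_one, sub_self]
  have h1 := (Complex.differentiableOn_dslope hnb).2 hfd
  have h2 := (Complex.differentiableOn_dslope hnb).2 h1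
  refine ⟨dslope (dslope f 0) 0, fun u hu =>
    h2.differentiableAt (isOpen_ball.mem_nhds (mem_ball_zero_iff.2 hu)), fun u => ?_⟩
  have e1 := sub_smul_dslope f 0 u
  have e2 := sub_smul_dslope (dslope f 0) 0 u
  rw [dslope_same, hfd0, sub_zero, sub_zero, smul_eq_mul] at e2
  rw [hf0, sub_zero, sub_zero, smul_eq_mul] at e1
  have e3 : hk κ u = 1 + β * u + f u := by simp only [hf]; ring
  rw [e3, ← e1, ← e2]
  ring

/-- local moments -/
noncomputable def e1 (k : ℝ) (x : ℂ) : ℝ := ∫ t, Real.exp (k * (la x (zet t)).re) ∂cir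

lemma norm_hk_sq (k : ℝ) (u : ℂ) : Real.exp (k * (Complex.log (Gf u)).re) =
    ‖hk (k / 2) u‖ ^ 2 := by
  unfold hk
  rw [Complex.norm_exp, ← Real.exp_nat_mul, Complex.re_ofReal_mul]
  congr 1
  push_cast
  ring

lemma e1_pos (k : ℝ) (x : ℂ) (hx : ‖x‖ < 1) : 0 < e1 k x := by
  unfold e1
  refine integral_exp_pos (integrable_cir (Real.continuous_exp.comp ?_))
  exact continuous_const.mul (Complex.continuous_re.comp (continuous_la_zet _ hx))

/-- the second order expansion of the local moments -/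
theorem e1_exp (k : ℝ) : ∃ C : ℝ, 0 ≤ C ∧ ∀ x : ℂ, ‖x‖ ≤ 3 / 4 →
    1 + (k * LF.g 1 / 2) ^ 2 * ‖x‖ ^ 2 ≤ e1 k x ∧
    e1 k x ≤ 1 + (k * LF.g 1 / 2) ^ 2 * ‖x‖ ^ 2 + C * ‖x‖ ^ 4 := by
  obtain ⟨F, hF, hid⟩ := exists_F2 (k / 2)
  have hFc : ContinuousOn F (closedBall 0 (3 / 4)) := fun u hu =>
    (hF u (by have := mem_closedBall_zero_iff.1 hu; linarith)).continuousAt.continuousWithinAt
  obtain ⟨B, hB⟩ := (isCompact_closedBall (0 : ℂ) (3 / 4)).exists_bound_of_continuousOn hFc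
  have hB0 : 0 ≤ B := (norm_nonneg _).trans (hB 0 (by simp; norm_num))
  refine ⟨B ^ 2, by positivity, fun x hx => ?_⟩
  have hx1 : ‖x‖ < 1 := by linarith
  set β : ℝ := k / 2 * LF.g 1 with hβ
  set Φ : ℂ → ℂ := fun u => 2 * β * u + 2 * (u ^ 2 * F u) + 2 * β * ‖x‖ ^ 2 * (u * F u) with hΦ
  have hΦd : ∀ u, ‖u‖ < 1 → DifferentiableAt ℂ Φ u := by
    intro u hu
    have := hF u hu
    simp only [hΦ]
    fun_prop
  have hn : ∀ t, ‖x * zet t‖ = ‖x‖ := fun t => by rw [norm_mul, norm_zet, mul_one]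
  have hxz : Continuous fun t : UnitAddCircle => x * zet t := continuous_const.mul continuous_zet
  have hcF : Continuous fun t : UnitAddCircle => F (x * zet t) := by
    rw [continuous_iff_continuousAt]
    intro t
    exact ContinuousAt.comp (f := fun t : UnitAddCircle => x * zet t) (g := F)
      (hF _ (by rw [hn]; exact hx1)).continuousAt hxz.continuousAt
  have hcΦ : Continuous fun t : UnitAddCircle => Φ (x * zet t) :=
    ((continuous_const.mul hxz).add (continuous_const.mul ((hxz.pow 2).mul hcF))).add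
      (continuous_const.mul (hxz.mul hcF))
  have hpt : ∀ t : UnitAddCircle, Real.exp (k * (la x (zet t)).re) =
      1 + β ^ 2 * ‖x‖ ^ 2 + ‖(x * zet t) ^ 2 * F (x * zet t)‖ ^ 2 + (Φ (x * zet t)).re := by
    intro t
    unfold la
    rw [norm_hk_sq, hid]
    have hnt := hn t
    set u := x * zet t with hu
    set w := u ^ 2 * F u with hw
    have hus : Complex.normSq u = ‖x‖ ^ 2 := by rw [Complex.normSq_eq_norm_sq, hnt]
    have h1 : ‖1 + ((k / 2 * LF.g 1 : ℝ) : ℂ) * u + w‖ ^ 2 =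
        Complex.normSq (1 + (β : ℂ) * u + w) := (Complex.normSq_eq_norm_sq _).symm
    rw [h1, ← Complex.normSq_eq_norm_sq w, Complex.normSq_add, Complex.normSq_add]
    have h2 : ((1 + (β : ℂ) * u) * conj w).re = (w + β * ‖x‖ ^ 2 * (u * F u)).re := by
      have h3 : ((1 + (β : ℂ) * u) * conj w).re = (conj ((1 + (β : ℂ) * u) * conj w)).re :=
        (Complex.conj_re _).symm
      rw [h3]
      congr 1
      rw [map_mul, map_add, map_mul, Complex.conj_conj, map_one, Complex.conj_ofReal, add_mul,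
        one_mul]
      congr 1
      have h4 : conj u * u = ((‖x‖ ^ 2 : ℝ) : ℂ) := by
        rw [mul_comm, Complex.mul_conj, hus]
      calc (β : ℂ) * conj u * w = β * (conj u * u) * (u * F u) := by rw [hw]; ring
        _ = _ := by rw [h4]; push_cast; ring
    rw [h2, Complex.normSq_mul, hus, Complex.normSq_ofReal, map_one]
    have h5 : ((1 : ℂ) * conj ((β : ℂ) * u)).re = β * u.re := by
      rw [one_mul, map_mul, Complex.conj_ofReal, Complex.re_ofReal_mul, Complex.conj_re]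
    rw [h5]
    have h6 : (Φ u).re = 2 * (β * u.re) + 2 * (w + β * ‖x‖ ^ 2 * (u * F u)).re := by
      have h7 : Φ u = ((2 : ℝ) : ℂ) * ((β : ℂ) * u) +
          ((2 : ℝ) : ℂ) * (w + β * ‖x‖ ^ 2 * (u * F u)) := by
        simp only [hΦ]; push_cast; ring
      rw [h7, Complex.add_re, Complex.re_ofReal_mul, Complex.re_ofReal_mul,
        Complex.re_ofReal_mul]
    rw [h6]
    ring
  have hΦi : ∫ t, (Φ (x * zet t)).re ∂cir = 0 := by
    have h1 := integral_re (𝕜 := ℂ) (integrable_cir hcΦ)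
    simp only [RCLike.re_to_complex] at h1
    rw [h1, mean_value hΦd hx1]
    simp [hΦ]
  set V : UnitAddCircle → ℝ := fun t => ‖(x * zet t) ^ 2 * F (x * zet t)‖ ^ 2 with hV
  have hVc : Continuous V := (((hxz.pow 2).mul hcF).norm).pow 2
  have he : e1 k x = 1 + β ^ 2 * ‖x‖ ^ 2 + ∫ t, V t ∂cir := by
    unfold e1
    simp_rw [hpt]
    rw [integral_add (f := fun t => 1 + β ^ 2 * ‖x‖ ^ 2 + V t)
      (g := fun t => (Φ (x * zet t)).re) (integrable_cir (continuous_const.add hVc))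
      (integrable_cir (Complex.continuous_re.comp hcΦ)), hΦi, add_zero,
      integral_add (integrable_cir continuous_const) (integrable_cir hVc)]
    simp
  have hV0 : 0 ≤ ∫ t, V t ∂cir := integral_nonneg fun t => by positivity
  have hV1 : ∫ t, V t ∂cir ≤ B ^ 2 * ‖x‖ ^ 4 := by
    have h1 : ∫ t, V t ∂cir ≤ ∫ _t : UnitAddCircle, B ^ 2 * ‖x‖ ^ 4 ∂cir := by
      refine integral_mono (integrable_cir hVc) (integrable_cir continuous_const) fun t => ?_
      simp only [hV]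
      rw [norm_mul, norm_pow, hn]
      have h2 := hB (x * zet t) (by rw [mem_closedBall_zero_iff, hn]; exact hx)
      calc (‖x‖ ^ 2 * ‖F (x * zet t)‖) ^ 2 ≤ (‖x‖ ^ 2 * B) ^ 2 := by gcongr
        _ = _ := by ring
    refine h1.trans (le_of_eq ?_)
    simp
  have hβ2 : β ^ 2 = (k * LF.g 1 / 2) ^ 2 := by rw [hβ]; ring
  rw [he, hβ2]
  constructor <;> linarith

end Pool.Agent.H7.DG
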