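import Pool.Agent.H7.DG.G0

set_option autoImplicit false
open MeasureTheory Metric Filter
open scoped ComplexConjugate ENNReal Topology

/-! General local factors: version of H7/PL/L2.lean. -/

namespace Pool.Agent.H7.DG

open Pool.Agent.Helper873.OneVar Pool.Agent.Helper873.Product Pool.Agent.Helper873.Embed
  Pool.Agent.Helper873.Monomial Pool.Agent.H7.PM Pool.Agent.H7.PL

variable [LF]

/-- Euler products -/
noncomputable def EP (Q : Finset ℕ) (s : ℂ) (z : Tor) : ℂ :=
  Complex.exp (∑ j ∈ Q, la (px s j) (zet (z j)))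

lemma continuous_EP (Q : Finset ℕ) (s : ℂ) (hs : 0 < s.re) : Continuous (EP Q s) :=
  Complex.continuous_exp.comp (continuous_finsetSum _ fun j _ =>
    (continuous_la_zet _ (norm_px_lt s hs j)).comp (continuous_apply j))

/-- the multiplicative function -/
noncomputable def ag (n : ℕ) : ℝ := n.factorization.prod fun _ m => LF.g m

lemma ag_one : ag 1 = 1 := by simp [ag]

lemma ag_mul {m n : ℕ} (h : Nat.Coprime m n) : ag (m * n) = ag m * ag n := by
  unfold ag
  rw [Nat.factorization_mul_of_coprime h]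
  refine Finsupp.prod_add_index_of_disjoint ?_ _
  rw [Nat.support_factorization, Nat.support_factorization]
  exact h.disjoint_primeFactors

lemma ag_pow {p : ℕ} (hp : p.Prime) (m : ℕ) : ag (p ^ m) = LF.g m := by
  unfold ag
  rw [hp.factorization_pow]
  exact Finsupp.prod_single_index LF.g0

lemma ag_nonneg (n : ℕ) : 0 ≤ ag n := by
  unfold ag Finsupp.prod
  exact Finset.prod_nonneg fun _ _ => LF.nn _

lemma ag_le (n : ℕ) : ag n ≤ 1 := by
  unfold ag Finsupp.prod
  exact Finset.prod_le_one (fun _ _ => LF.nn _) fun _ _ => LF.le _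

/-- the multiplicative function with the twist -/
noncomputable def fm (s : ℂ) (hs : s ≠ 0) (z : Tor) (n : ℕ) : ℂ := (ag n : ℂ) * mf s hs z n

lemma fm_one (s : ℂ) (hs : s ≠ 0) (z : Tor) : fm s hs z 1 = 1 := by
  unfold fm; rw [ag_one, map_one]; simp

lemma fm_mul (s : ℂ) (hs : s ≠ 0) (z : Tor) {m n : ℕ} (h : Nat.Coprime m n) :
    fm s hs z (m * n) = fm s hs z m * fm s hs z n := by
  unfold fm; rw [ag_mul h, map_mul]; push_cast; ring

lemma fm_pow (s : ℂ) (hs : s ≠ 0) (z : Tor) {p : ℕ} (hp : p.Prime) (m : ℕ) :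
    fm s hs z (p ^ m) = (LF.g m : ℂ) * mf s hs z p ^ m := by
  unfold fm; rw [ag_pow hp, map_pow]

lemma fm_summable (s : ℂ) (hs : s ≠ 0) (hs0 : 0 < s.re) (z : Tor) {p : ℕ} (hp : p.Prime) :
    Summable fun n : ℕ => ‖fm s hs z (p ^ n)‖ := by
  have h1 := norm_mf s hs hs0 z p hp
  refine (summable_Gf h1).congr fun m => ?_
  rw [fm_pow s hs z hp]

open Classical in
/-- the coefficients -/
noncomputable def cq (Q : Finset ℕ) (s : ℂ) (n : ℕ) : ℂ :=
  if n ∈ Nat.factoredNumbers (sq Q) then (ag n : ℂ) * (n : ℂ) ^ (-s) else 0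

lemma cq_zero (Q : Finset ℕ) (s : ℂ) : cq Q s 0 = 0 := by
  unfold cq
  rw [if_neg]
  intro h
  exact (Nat.mem_factoredNumbers.1 h).1 rfl

lemma summable_cq (Q : Finset ℕ) (s : ℂ) (hs : 0 < s.re) : Summable fun n => ‖cq Q s n‖ := by
  have h := (EulerProduct.summable_and_hasSum_factoredNumbers_prod_filter_prime_tsum
    (f := fm s (ne_zero_of_re hs) 0) (fm_one _ _ _) (fun {m n} h => fm_mul _ _ _ h)
    (fun {p} hp => fm_summable _ _ hs _ hp) (sq Q)).1
  have h2 := (summable_subtype_iff_indicator (f := fun m => ‖fm s (ne_zero_of_re hs) 0 m‖)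
    (s := Nat.factoredNumbers (sq Q))).1 h
  refine h2.congr fun n => ?_
  unfold cq
  by_cases hn : n ∈ Nat.factoredNumbers (sq Q)
  · rw [Set.indicator_of_mem hn, if_pos hn]
    unfold fm
    rw [mf_apply, norm_mul, norm_mul, norm_stf, one_mul, norm_mul]
  · rw [Set.indicator_of_notMem hn, if_neg hn, norm_zero]

theorem EP_eq (Q : Finset ℕ) (s : ℂ) (hs : 0 < s.re) (z : Tor) : EP Q s z = DSer (cq Q s) z := by
  have h := (EulerProduct.summable_and_hasSum_factoredNumbers_prod_filter_prime_tsum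
    (f := fm s (ne_zero_of_re hs) z) (fm_one _ _ _) (fun {m n} h => fm_mul _ _ _ h)
    (fun {p} hp => fm_summable _ _ hs _ hp) (sq Q)).2
  have h2 := (hasSum_subtype_iff_indicator (f := fun m => fm s (ne_zero_of_re hs) z m)
    (s := Nat.factoredNumbers (sq Q))).1 h
  have h3 : (Set.indicator (Nat.factoredNumbers (sq Q)) fun m => fm s (ne_zero_of_re hs) z m) =
      fun n => cq Q s n * stf n z := by
    funext n
    unfold cq
    by_cases hn : n ∈ Nat.factoredNumbers (sq Q)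
    · rw [Set.indicator_of_mem hn, if_pos hn]
      unfold fm
      rw [mf_apply]
      ring
    · rw [Set.indicator_of_notMem hn, if_neg hn, zero_mul]
  rw [h3] at h2
  unfold DSer
  rw [h2.tsum_eq]
  have h4 : (sq Q).filter Nat.Prime = sq Q := by
    refine Finset.filter_true_of_mem fun p hp => ?_
    unfold PL.sq at hp
    obtain ⟨j, _, rfl⟩ := Finset.mem_image.1 hp
    exact Nat.prime_nth_prime j
  rw [h4]
  unfold PL.sq
  rw [Finset.prod_image (fun i _ j _ h => Nat.nth_injective Nat.infinite_setOfPred_prime h)]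
  unfold EP
  rw [Complex.exp_sum]
  refine Finset.prod_congr rfl fun j _ => ?_
  have h5 : ‖px s j * zet (z j)‖ < 1 := by
    rw [norm_mul, norm_zet, mul_one]
    exact norm_px_lt s hs j
  have h7 : mf s (ne_zero_of_re hs) z (Nat.nth Nat.Prime j) = px s j * zet (z j) := by
    rw [mf_apply, stf_prime, mul_comm]
    rfl
  unfold la
  rw [Complex.exp_log (Gf_ne h5)]
  unfold Gf
  refine tsum_congr fun m => ?_
  rw [fm_pow _ _ _ (Nat.prime_nth_prime j), h7]

/-- bound for the Euler products -/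
lemma norm_EP_le (Q : Finset ℕ) (s : ℂ) (hs : 0 < s.re) (z : Tor) :
    ‖EP Q s z‖ ≤ ∑' n, ‖cq Q s n‖ := by
  rw [EP_eq Q s hs]
  unfold DSer
  refine (norm_tsum_le_tsum_norm ?_).trans (le_of_eq ?_)
  · simpa [norm_mul, norm_stf] using summable_cq Q s hs
  · simp [norm_stf]

lemma cq_add (Q : Finset ℕ) (s t : ℂ) (n : ℕ) : cq Q (s + t) n = (n : ℂ) ^ (-t) * cq Q s n := by
  unfold cq
  split_ifs with h
  · have hn : (n : ℂ) ≠ 0 := by exact_mod_cast (Nat.mem_factoredNumbers.1 h).1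
    have e : -(s + t) = -t + -s := by ring
    rw [e, Complex.cpow_add _ _ hn]
    ring
  · simp

lemma cq_shift (Q : Finset ℕ) (s : ℂ) (τ : ℝ) (j n : ℕ) :
    cq Q (s + j * τ) n = ((((n : ℝ) ^ (-τ)) ^ j : ℝ) : ℂ) * cq Q s n := by
  rcases eq_or_ne n 0 with rfl | hn
  · simp [cq_zero]
  rw [cq_add]
  congr 1
  have hn0 : (0 : ℝ) ≤ n := Nat.cast_nonneg n
  rw [← Real.rpow_natCast, ← Real.rpow_mul hn0, Complex.ofReal_cpow hn0]
  push_cast
  congr 1
  ring

lemma norm_cq_shift_le (Q : Finset ℕ) (s : ℂ) {τ : ℝ} (hτ : 0 ≤ τ) (j n : ℕ) :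
    ‖cq Q (s + j * τ) n‖ ≤ ‖cq Q s n‖ := by
  rcases eq_or_ne n 0 with rfl | hn
  · simp [cq_zero]
  rw [cq_shift, norm_mul, Complex.norm_real, Real.norm_of_nonneg (by positivity)]
  have h1 := rpow_le_one' n hτ hn
  have h2 : ((n : ℝ) ^ (-τ)) ^ j ≤ 1 := pow_le_one₀ (by positivity) h1
  have := norm_nonneg (cq Q s n)
  nlinarith

end Pool.Agent.H7.DG
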