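import Pool.Agent.H7.DG.G9

set_option autoImplicit false
open MeasureTheory Metric Filter
open scoped ComplexConjugate ENNReal Topology

/-! General local factors: upper bounds. -/

namespace Pool.Agent.H7.DG

open Pool.Agent.Helper873.OneVar Pool.Agent.Helper873.Product Pool.Agent.Helper873.Embed
  Pool.Agent.Helper873.Monomial Pool.Agent.H7.PM Pool.Agent.H7.PL

variable [LF]

lemma W_le (Q : Finset ℕ) {τ k : ℝ} (hτ : 0 ≤ τ) (hk : 0 < k) (hk1 : k ≤ 1) (c : ℕ) (z : Tor) :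
    ‖W Q τ (Real.exp c) z‖ ^ k ≤ Real.exp (2 * Real.exp c) ^ k * GG Q τ k z := by
  set A : ℝ := ∑' n, ‖cq Q (1 / 2) n‖ with hA
  set E : ℝ := Real.exp (2 * Real.exp c) with hE
  have hE0 : 0 < E := Real.exp_pos _
  have hs : Summable fun j : ℕ => (2 * (1 / 2 : ℝ) ^ j) * ‖EP Q (sp τ j) z‖ := by
    refine Summable.of_nonneg_of_le (fun j => by positivity) (fun j => ?_)
      (((summable_geometric_two).mul_left 2).mul_right A)
    exact mul_le_mul_of_nonneg_left (norm_EP_sp Q hτ j z) (by positivity)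
  have h1 : ‖W Q τ (Real.exp c) z‖ ≤ E * ∑' j : ℕ, (2 * (1 / 2 : ℝ) ^ j) * ‖EP Q (sp τ j) z‖ := by
    rw [W_series Q hτ (Real.exp_pos _).le, ← tsum_mul_left]
    refine tsum_of_norm_bounded (hs.mul_left E).hasSum fun j => ?_
    rw [norm_mul, norm_mul, norm_pow, Complex.norm_real, Real.norm_of_nonneg (Real.exp_pos _).le]
    have h2 := norm_hh j
    have h3 := expc_le c j
    have h4 : (0 : ℝ) ≤ (1 / 2 : ℝ) ^ j := by positivity
    calc ‖hh j‖ * Real.exp c ^ j * ‖EP Q (sp τ j) z‖ ≤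
        (1 / (j.factorial : ℝ)) * Real.exp c ^ j * ‖EP Q (sp τ j) z‖ := by gcongr
      _ = (Real.exp c ^ j * (1 / (j.factorial : ℝ))) * ‖EP Q (sp τ j) z‖ := by ring
      _ ≤ (E * (1 / 2 : ℝ) ^ j) * ‖EP Q (sp τ j) z‖ := by gcongr
      _ ≤ (E * (2 * (1 / 2 : ℝ) ^ j)) * ‖EP Q (sp τ j) z‖ := by
          refine mul_le_mul_of_nonneg_right (mul_le_mul_of_nonneg_left (by linarith) hE0.le)
            (norm_nonneg _)
      _ = _ := by ring
  have h0 : 0 ≤ ∑' j : ℕ, (2 * (1 / 2 : ℝ) ^ j) * ‖EP Q (sp τ j) z‖ :=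
    tsum_nonneg fun j => by positivity
  refine (Real.rpow_le_rpow (norm_nonneg _) h1 hk.le).trans ?_
  rw [Real.mul_rpow hE0.le h0]
  refine mul_le_mul_of_nonneg_left ?_ (by positivity)
  have e : ∀ j : ℕ, ((2 * (1 / 2 : ℝ) ^ j) * ‖EP Q (sp τ j) z‖) ^ k =
      w2 k j * ‖EP Q (sp τ j) z‖ ^ k := by
    intro j
    rw [Real.mul_rpow (by positivity) (norm_nonneg _)]
    rfl
  have h3 := rpow_tsum_le hk hk1 (fun j : ℕ => (2 * (1 / 2 : ℝ) ^ j) * ‖EP Q (sp τ j) z‖)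
    (fun j => by positivity) hs (by simp_rw [e]; exact summable_GG Q hτ hk z)
  simp_rw [e] at h3
  exact h3

omit [LF] in
lemma factored_of_Sc {K N n : ℕ} (hK : Sc K (dl N)) (hn : n ≠ 0) (h : n ≤ N) :
    n ∈ Nat.factoredNumbers (PL.sq (Finset.range K)) := by
  rw [Nat.mem_factoredNumbers']
  intro p hp hpn
  have h1 : p ≤ n := Nat.le_of_dvd (Nat.pos_of_ne_zero hn) hpn
  unfold PL.sq
  refine Finset.mem_image.2 ⟨Nat.count Nat.Prime p, ?_, Nat.nth_count hp⟩
  rw [Finset.mem_range, hK, Nat.nth_count hp]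
  unfold dl
  rw [one_div_one_div]
  exact Real.log_le_log (by exact_mod_cast hp.pos) (by exact_mod_cast h1.trans h)

lemma SK_SN {K N : ℕ} (hK : Sc K (dl N)) : SK K N = SN N := by
  funext z
  unfold SK SN
  refine Finset.sum_congr rfl fun n hn => ?_
  obtain ⟨h1, h2⟩ := Finset.mem_Icc.1 hn
  unfold cq
  rw [if_pos (factored_of_Sc hK (by omega) h2)]

/-- **upper bound for the moments of the partial sums** -/
theorem SN_upper {k : ℝ} (hk : 0 < k) (hk1 : k ≤ 1) : ∃ C : ℝ, 0 < C ∧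
    ∀ᶠ N in atTop, mo k (SN N) ≤ C * (dl N)⁻¹ ^ (qe k) := by
  obtain ⟨C1, hC1, hall⟩ := all_scales hk hk1
  obtain ⟨CE, hCE, hE⟩ := mo_EP_bound k
  set E : ℝ := Real.exp (2 * Real.exp (1 : ℕ)) with hEd
  have hE0 : 0 < E := Real.exp_pos _
  set Z1 : ℝ := ∑' j, w2 k j with hZ1
  have hZ10 : 0 ≤ Z1 := tsum_nonneg fun j => w2_nonneg k j
  refine ⟨C1 + E ^ k * (Z1 * CE), by positivity, ?_⟩
  filter_upwards [dl_tendsto.eventually (gt_mem_nhds (by norm_num : (0 : ℝ) < 1 / 24)),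
    eventually_ge_atTop 2] with N hN hN2
  have hδ := dl_pos hN2
  obtain ⟨K, hK⟩ := exists_Sc (dl N)
  have a1 := hall K K N (dl N) hδ hN.le hK le_rfl (by omega)
  have hU : (N : ℝ) ^ (dl N) = Real.exp (1 : ℕ) := by
    have := dl_rpow_exp hN2 1
    rw [one_mul] at this
    rw [this, Nat.cast_one]
  rw [hU, SK_SN hK] at a1
  have cW : Continuous (W (Finset.range K) (dl N) (Real.exp (1 : ℕ))) :=
    continuous_W _ (Real.exp_pos _).le
  have a2 : mo k (W (Finset.range K) (dl N) (Real.exp (1 : ℕ))) ≤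
      E ^ k * (Z1 * (CE * (1 / dl N) ^ (qe k))) := by
    have h1 : mo k (W (Finset.range K) (dl N) (Real.exp (1 : ℕ))) ≤
        ∫ z, E ^ k * GG (Finset.range K) (dl N) k z ∂tor := by
      unfold mo
      exact integral_mono (integrable_tor' (continuous_norm_rpow cW hk.le))
        (integrable_tor' (continuous_const.mul (continuous_GG _ hδ.le hk)))
        fun z => W_le _ hδ.le hk hk1 1 z
    rw [integral_const_mul] at h1
    refine h1.trans (mul_le_mul_of_nonneg_left (int_GG _ hδ.le hk _ fun j => ?_) (by positivity))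
    refine hE K (dl N) hδ hN.le hK.small _ ?_
    rw [sp_re]
    have : 0 ≤ (j : ℝ) * dl N := by positivity
    linarith
  have t1 := mo_le hk hk1 (continuous_SN N) cW
  rw [one_div] at a1 a2
  calc mo k (SN N) ≤ C1 * (dl N)⁻¹ ^ (qe k) + E ^ k * (Z1 * (CE * (dl N)⁻¹ ^ (qe k))) :=
        t1.trans (add_le_add a1 a2)
    _ = _ := by ring

end Pool.Agent.H7.DG
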