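import Pool.Agent.H7.DG.G10

set_option autoImplicit false
open MeasureTheory Metric Filter
open scoped ComplexConjugate ENNReal Topology

/-! General local factors: all lengths, and the negative powers of the divisor function. -/

namespace Pool.Agent.H7.DG

open Pool.Agent.Helper873.OneVar Pool.Agent.Helper873.Product Pool.Agent.Helper873.Embed
  Pool.Agent.Helper873.Monomial Pool.Agent.H7.PM Pool.Agent.H7.PL

section General

variable [LF]

lemma SK_zero {N : ℕ} (hN : 1 ≤ N) (z : Tor) : SK 0 N z = 1 := by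
  classical
  unfold SK
  have h1 : PL.sq (Finset.range 0) = ∅ := by simp [PL.sq]
  rw [Finset.sum_eq_single 1]
  · unfold cq
    have h2 : 1 ∈ Nat.factoredNumbers (PL.sq (Finset.range 0)) := by
      rw [h1, Nat.factoredNumbers_empty]; rfl
    rw [if_pos h2, ag_one]
    have : stf 1 z = 1 := by
      unfold stf
      simp [mon, ex]
    rw [this]
    simp
  · intro n _ hn
    unfold cq
    have h2 : n ∉ Nat.factoredNumbers (PL.sq (Finset.range 0)) := by
      rw [h1, Nat.factoredNumbers_empty]; simpa using hn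
    rw [if_neg h2, zero_mul]
  · intro h
    exact absurd (Finset.mem_Icc.2 ⟨le_rfl, hN⟩) h

lemma one_le_mo {k : ℝ} (hk : 0 < k) {N : ℕ} (hN : 1 ≤ N) : 1 ≤ mo k (SN N) := by
  refine le_trans (le_of_eq ?_) (mo_contract hk 0 N)
  unfold mo
  simp_rw [SK_zero hN]
  simp

/-- lower bound, all lengths -/
theorem SN_lower_all {k : ℝ} (hk : 0 < k) (hk1 : k ≤ 1) : ∃ c : ℝ, 0 < c ∧
    ∀ N : ℕ, 2 ≤ N → c * Real.log N ^ (qe k) ≤ mo k (SN N) := by
  obtain ⟨c, hc, h⟩ := SN_lower hk hk1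
  obtain ⟨N0, hN0⟩ := eventually_atTop.1 h
  have hL : 0 < Real.log ((N0 + 2 : ℕ) : ℝ) := Real.log_pos (by push_cast; linarith [Nat.cast_nonneg (α := ℝ) N0])
  refine ⟨min c (Real.log ((N0 + 2 : ℕ) : ℝ) ^ (-qe k)), lt_min hc (Real.rpow_pos_of_pos hL _),
    fun N hN => ?_⟩
  have hl : 0 ≤ Real.log N := Real.log_nonneg (by exact_mod_cast (by omega : 1 ≤ N))
  have hp : 0 ≤ Real.log N ^ qe k := Real.rpow_nonneg hl _
  rcases le_or_gt N0 N with h1 | h1
  · have h2 := hN0 N h1
    unfold dl at h2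
    rw [one_div, inv_inv] at h2
    exact (mul_le_mul_of_nonneg_right (min_le_left _ _) hp).trans h2
  · refine le_trans ?_ (one_le_mo hk (by omega))
    have h3 : Real.log N ≤ Real.log ((N0 + 2 : ℕ) : ℝ) :=
      Real.log_le_log (by exact_mod_cast (by omega : 0 < N)) (by exact_mod_cast (by omega : N ≤ N0 + 2))
    calc min c (Real.log ((N0 + 2 : ℕ) : ℝ) ^ (-qe k)) * Real.log N ^ qe k ≤
        Real.log ((N0 + 2 : ℕ) : ℝ) ^ (-qe k) * Real.log ((N0 + 2 : ℕ) : ℝ) ^ qe k :=
          mul_le_mul (min_le_right _ _) (Real.rpow_le_rpow hl h3 (qe_nonneg k)) hp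
            (Real.rpow_nonneg hL.le _)
      _ = 1 := by rw [← Real.rpow_add hL]; simp

/-- upper bound, all lengths -/
theorem SN_upper_all {k : ℝ} (hk : 0 < k) (hk1 : k ≤ 1) : ∃ C : ℝ, 0 < C ∧
    ∀ N : ℕ, 2 ≤ N → mo k (SN N) ≤ C * Real.log N ^ (qe k) := by
  obtain ⟨C, hC, h⟩ := SN_upper hk hk1
  obtain ⟨N0, hN0⟩ := eventually_atTop.1 h
  have hL : 0 < Real.log (2 : ℝ) := Real.log_pos (by norm_num)
  set S : ℝ := ∑ N ∈ Finset.range N0, mo k (SN N) with hS
  refine ⟨max C (S * Real.log 2 ^ (-qe k)), lt_max_of_lt_left hC, fun N hN => ?_⟩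
  have hl2 : Real.log 2 ≤ Real.log N := Real.log_le_log (by norm_num) (by exact_mod_cast hN)
  have hl : 0 ≤ Real.log N := hL.le.trans hl2
  have hp : 0 ≤ Real.log N ^ qe k := Real.rpow_nonneg hl _
  rcases le_or_gt N0 N with h1 | h1
  · have h2 := hN0 N h1
    unfold dl at h2
    rw [one_div, inv_inv] at h2
    exact h2.trans (mul_le_mul_of_nonneg_right (le_max_left _ _) hp)
  · have h3 : mo k (SN N) ≤ S :=
      Finset.single_le_sum (f := fun N => mo k (SN N)) (fun i _ => mo_nonneg k _)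
        (Finset.mem_range.2 h1)
    have hS0 : 0 ≤ S := (mo_nonneg k _).trans h3
    calc mo k (SN N) ≤ S := h3
      _ = S * Real.log 2 ^ (-qe k) * Real.log 2 ^ qe k := by
          rw [mul_assoc, ← Real.rpow_add hL]; simp
      _ ≤ max C (S * Real.log 2 ^ (-qe k)) * Real.log N ^ qe k :=
          mul_le_mul (le_max_right _ _) (Real.rpow_le_rpow hL.le hl2 (qe_nonneg k))
            (Real.rpow_nonneg hL.le _) (hC.le.trans (le_max_left _ _))

/-- the Dirichlet polynomial -/
noncomputable def DN (N : ℕ) (s : ℂ) : ℂ :=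
  ∑ n ∈ Finset.Icc 1 N, (ag n : ℂ) * (n : ℂ) ^ (-(1 / 2 : ℂ) - s)

lemma DN_eq (N : ℕ) (t : ℝ) : DN N (t * Complex.I) = PU.DF (fun n => (ag n : ℂ)) N t := by
  unfold DN PU.DF
  refine Finset.sum_congr rfl fun n _ => ?_
  congr 2
  ring

lemma DN_conj (N : ℕ) (t : ℝ) : ‖DN N (((-t : ℝ) : ℂ) * Complex.I)‖ = ‖DN N (t * Complex.I)‖ := by
  have h : DN N (((-t : ℝ) : ℂ) * Complex.I) = conj (DN N (t * Complex.I)) := by
    unfold DN
    rw [map_sum]
    refine Finset.sum_congr rfl fun n hn => ?_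
    have hn0 : n ≠ 0 := by have := (Finset.mem_Icc.1 hn).1; omega
    have e := Complex.conj_cpow (n : ℂ) (conj (-(1 / 2 : ℂ) - t * Complex.I))
      (by rw [Complex.natCast_arg]; exact Real.pi_ne_zero.symm)
    rw [Complex.conj_conj, Complex.conj_natCast] at e
    rw [map_mul, Complex.conj_ofReal, ← e]
    congr 2
    rw [map_sub, map_neg, map_mul, Complex.conj_I, Complex.conj_ofReal, map_div₀, map_one,
      Complex.conj_ofNat]
    push_cast
    ring
  rw [h, RCLike.norm_conj]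

lemma SF_ag (N : ℕ) : PU.SF (fun n => (ag n : ℂ)) N = SN N := by
  funext z
  rfl

theorem mean_DN {k : ℝ} (hk : 0 < k) (N : ℕ) :
    Tendsto (fun T : ℝ => (2 * T)⁻¹ * ∫ y in (-T)..T, ‖DN N (y * Complex.I)‖ ^ k) atTop
      (𝓝 (mo k (SN N))) := by
  have h := PU.mean_DF hk (fun n => (ag n : ℂ)) N
  rw [SF_ag] at h
  refine h.congr fun T => ?_
  have hc : Continuous fun y : ℝ => ‖DN N (y * Complex.I)‖ ^ k := by
    refine Continuous.rpow_const (Continuous.norm ?_) fun _ => Or.inr hk.le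
    unfold DN
    refine continuous_finsetSum _ fun n hn => ?_
    have hn0 : n ≠ 0 := by have := (Finset.mem_Icc.1 hn).1; omega
    refine continuous_const.mul ?_
    refine Continuous.const_cpow (by fun_prop) (Or.inl (by exact_mod_cast hn0))
  have h1 : ∫ y in (-T)..T, ‖DN N (y * Complex.I)‖ ^ k =
      2 * ∫ y in (0 : ℝ)..T, ‖DN N (y * Complex.I)‖ ^ k := by
    rw [← intervalIntegral.integral_add_adjacent_intervals (b := 0) (hc.intervalIntegrable _ _)
      (hc.intervalIntegrable _ _)]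
    have h2 := intervalIntegral.integral_comp_neg (a := 0) (b := T)
      (fun y : ℝ => ‖DN N (y * Complex.I)‖ ^ k)
    rw [neg_zero] at h2
    rw [← h2]
    have h3 : ∀ y : ℝ, ‖DN N (((-y : ℝ) : ℂ) * Complex.I)‖ ^ k = ‖DN N (y * Complex.I)‖ ^ k :=
      fun y => by rw [DN_conj]
    simp_rw [h3]
    ring
  rw [h1]
  simp_rw [DN_eq]
  rw [mul_inv]
  ring

end General

/-- the local factor of `d(n)^γ` -/
@[reducible] noncomputable def LFd (γ : ℝ) (h : γ ≤ 0) : LF where
  g m := ((m : ℝ) + 1) ^ γ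
  g0 := by simp
  g1 := by positivity
  nn m := by positivity
  anti := fun a b hab => Real.rpow_le_rpow_of_nonpos (by positivity)
    (by have : (a : ℝ) ≤ b := by exact_mod_cast hab
        linarith) h

lemma ag_LFd (γ : ℝ) (h : γ ≤ 0) {n : ℕ} (hn : n ≠ 0) :
    @ag (LFd γ h) n = (n.divisors.card : ℝ) ^ γ := by
  unfold ag Finsupp.prod
  show ∏ a ∈ n.factorization.support, ((n.factorization a : ℝ) + 1) ^ γ = _
  rw [Real.finsetProd_rpow _ _ (fun i _ => by positivity), Nat.card_divisors hn,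
    Nat.support_factorization]
  push_cast
  rfl

end Pool.Agent.H7.DG
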