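import Pool.Agent.H7.DG.G1

set_option autoImplicit false
open MeasureTheory Metric Filter
open scoped ComplexConjugate ENNReal Topology

/-! General local factors: version of H7/PL/L3.lean. -/

namespace Pool.Agent.H7.DG

open Pool.Agent.Helper873.OneVar Pool.Agent.Helper873.Product Pool.Agent.Helper873.Embed
  Pool.Agent.Helper873.Monomial Pool.Agent.H7.PM Pool.Agent.H7.PL

variable [LF]

/-- coefficients of the smooth cut -/
noncomputable def wc (Q : Finset ℕ) (τ U : ℝ) (n : ℕ) : ℂ :=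
  ((1 - Real.exp (-(U * (n : ℝ) ^ (-τ))) : ℝ) : ℂ) * cq Q (1 / 2) n

/-- the smooth cut -/
noncomputable def W (Q : Finset ℕ) (τ U : ℝ) (z : Tor) : ℂ := DSer (wc Q τ U) z

lemma norm_wc_le (Q : Finset ℕ) {τ U : ℝ} (hU : 0 ≤ U) (n : ℕ) :
    ‖wc Q τ U n‖ ≤ ‖cq Q (1 / 2) n‖ := by
  unfold wc
  have h := wgt_bd (U * (n : ℝ) ^ (-τ)) (by positivity)
  rw [norm_mul, Complex.norm_real, Real.norm_of_nonneg h.1]
  have := norm_nonneg (cq Q (1 / 2) n)
  nlinarith [h.2]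

lemma summable_wc (Q : Finset ℕ) {τ U : ℝ} (hU : 0 ≤ U) : Summable fun n => ‖wc Q τ U n‖ :=
  Summable.of_nonneg_of_le (fun _ => norm_nonneg _) (norm_wc_le Q hU) (summable_cq Q _ half_re)

lemma continuous_W (Q : Finset ℕ) {τ U : ℝ} (hU : 0 ≤ U) : Continuous (W Q τ U) :=
  continuous_DSer (summable_wc Q hU)

lemma norm_EP_sp (Q : Finset ℕ) {τ : ℝ} (hτ : 0 ≤ τ) (j : ℕ) (z : Tor) :
    ‖EP Q (sp τ j) z‖ ≤ ∑' n, ‖cq Q (1 / 2) n‖ := by
  refine (norm_EP_le Q _ (sp_pos hτ j) z).trans ?_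
  exact Summable.tsum_le_tsum (fun n => norm_cq_shift_le Q _ hτ j n)
    (summable_cq Q _ (sp_pos hτ j)) (summable_cq Q _ half_re)

theorem W_series (Q : Finset ℕ) {τ U : ℝ} (hτ : 0 ≤ τ) (hU : 0 ≤ U) (z : Tor) :
    W Q τ U z = ∑' j, hh j * (U : ℂ) ^ j * EP Q (sp τ j) z := by
  have h := fub (fun n => cq Q (1 / 2) n * stf n z)
    (by simpa [norm_mul, norm_stf] using summable_cq Q _ half_re) (by simp [cq_zero])
    (fun _ => 1) 1 (fun _ => by simp) τ U hτ hU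
  have e1 : ∀ j : ℕ, ∑' n : ℕ, ((((n : ℝ) ^ (-τ)) ^ j : ℝ) : ℂ) * (cq Q (1 / 2) n * stf n z) =
      EP Q (sp τ j) z := by
    intro j
    rw [EP_eq Q _ (sp_pos hτ j)]
    unfold DSer
    refine tsum_congr fun n => ?_
    unfold sp
    rw [cq_shift]
    ring
  have e2 : ∀ n : ℕ, ∑' j, hh j * (((U * (n : ℝ) ^ (-τ) : ℝ)) : ℂ) ^ j * 1 =
      ((1 - Real.exp (-(U * (n : ℝ) ^ (-τ))) : ℝ) : ℂ) := by
    intro n
    simp_rw [mul_one]
    exact (hh_sum _).tsum_eq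
  simp_rw [e1, e2, mul_one] at h
  rw [h]
  unfold W DSer wc
  exact tsum_congr fun n => by ring

lemma EP_rot {M K : ℕ} (hMK : M ≤ K) (s : ℂ) (z w : Tor) :
    EP (Finset.range K) s (z + rt M w) =
      EP (Finset.range M) s z * EP (Finset.Ico M K) s (z + w) := by
  unfold EP
  rw [← Complex.exp_add, Finset.range_eq_Ico, ← Finset.sum_Ico_consecutive _ (Nat.zero_le M) hMK,
    ← Finset.range_eq_Ico]
  congr 2
  · refine Finset.sum_congr rfl fun j hj => ?_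
    have : (z + rt M w) j = z j := by
      simp [rt, Finset.mem_range.1 hj]
    rw [this]
  · refine Finset.sum_congr rfl fun j hj => ?_
    have : (z + rt M w) j = (z + w) j := by
      simp [rt, not_lt.2 (Finset.mem_Ico.1 hj).1]
    rw [this]

theorem W_rot {M K : ℕ} (hMK : M ≤ K) {τ U : ℝ} (hτ : 0 ≤ τ) (hU : 0 ≤ U) (z w : Tor) :
    W (Finset.range K) τ U (z + rt M w) = ∑' l : ℕ, cq (Finset.Ico M K) (1 / 2) l *
      stf l (z + w) * W (Finset.range M) τ (U * (l : ℝ) ^ (-τ)) z := by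
  rw [W_series _ hτ hU]
  have h := fub (fun l => cq (Finset.Ico M K) (1 / 2) l * stf l (z + w))
    (by simpa [norm_mul, norm_stf] using summable_cq (Finset.Ico M K) _ half_re) (by simp [cq_zero])
    (fun j => EP (Finset.range M) (sp τ j) z) _ (fun j => norm_EP_sp _ hτ j z) τ U hτ hU
  have e1 : ∀ j : ℕ, ∑' n : ℕ, ((((n : ℝ) ^ (-τ)) ^ j : ℝ) : ℂ) *
      (cq (Finset.Ico M K) (1 / 2) n * stf n (z + w)) =
      EP (Finset.Ico M K) (sp τ j) (z + w) := by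
    intro j
    rw [EP_eq _ _ (sp_pos hτ j)]
    unfold DSer
    refine tsum_congr fun n => ?_
    unfold sp
    rw [cq_shift]
    ring
  have e2 : ∀ n : ℕ, ∑' j, hh j * (((U * (n : ℝ) ^ (-τ) : ℝ)) : ℂ) ^ j *
      EP (Finset.range M) (sp τ j) z = W (Finset.range M) τ (U * (n : ℝ) ^ (-τ)) z :=
    fun n => (W_series _ hτ (by positivity) z).symm
  simp_rw [e1, e2] at h
  rw [← h]
  refine tsum_congr fun j => ?_
  rw [EP_rot hMK]
  ring

/-- majorant for small arguments -/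
noncomputable def Ma (Q : Finset ℕ) (τ : ℝ) (z : Tor) : ℝ :=
  ∑' j : ℕ, 1 / (j.factorial : ℝ) * ‖EP Q (sp τ j) z‖

lemma summable_Ma (Q : Finset ℕ) {τ : ℝ} (hτ : 0 ≤ τ) (z : Tor) :
    Summable fun j : ℕ => 1 / (j.factorial : ℝ) * ‖EP Q (sp τ j) z‖ := by
  have h1 : Summable fun j : ℕ => 1 / (j.factorial : ℝ) := by
    simpa using summable_pow_fac 1
  refine Summable.of_nonneg_of_le (fun _ => by positivity) (fun j => ?_)
    (h1.mul_right (∑' n, ‖cq Q (1 / 2) n‖))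
  exact mul_le_mul_of_nonneg_left (norm_EP_sp Q hτ j z) (by positivity)

lemma W_small (Q : Finset ℕ) {τ U : ℝ} (hτ : 0 ≤ τ) (hU : 0 ≤ U) (hU1 : U ≤ 1) (z : Tor) :
    ‖W Q τ U z‖ ≤ U * Ma Q τ z := by
  rw [W_series Q hτ hU]
  unfold Ma
  rw [← tsum_mul_left]
  refine tsum_of_norm_bounded ((summable_Ma Q hτ z).mul_left U).hasSum fun j => ?_
  rw [norm_mul, norm_mul, norm_pow, Complex.norm_real, Real.norm_of_nonneg hU]
  rcases Nat.eq_zero_or_pos j with rfl | hj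
  · simp only [hh, if_pos, norm_zero, zero_mul]
    positivity
  · have h1 : U ^ j ≤ U := by
      calc U ^ j ≤ U ^ 1 := pow_le_pow_of_le_one hU hU1 hj
        _ = U := pow_one U
    have h2 := norm_hh j
    calc ‖hh j‖ * U ^ j * ‖EP Q (sp τ j) z‖ ≤ 1 / (j.factorial : ℝ) * U * ‖EP Q (sp τ j) z‖ := by
          gcongr
      _ = _ := by ring

end Pool.Agent.H7.DG
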