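import Pool.Agent.H7.DG.G2

set_option autoImplicit false
open MeasureTheory Metric Filter
open scoped ComplexConjugate ENNReal Topology

/-! General local factors: version of H7/PL/L4.lean. -/

namespace Pool.Agent.H7.DG

open Pool.Agent.Helper873.OneVar Pool.Agent.Helper873.Product Pool.Agent.Helper873.Embed
  Pool.Agent.Helper873.Monomial Pool.Agent.H7.PM Pool.Agent.H7.PL

variable [LF]

/-- complement of the smooth cut -/
lemma W_compl (Q : Finset ℕ) {τ U : ℝ} (hU : 0 ≤ U) (z : Tor) :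
    EP Q (1 / 2) z - W Q τ U z =
      ∑' n : ℕ, ((Real.exp (-(U * (n : ℝ) ^ (-τ))) : ℝ) : ℂ) * (cq Q (1 / 2) n * stf n z) := by
  rw [EP_eq Q _ half_re]
  unfold W
  rw [← DSer_sub (summable_cq Q _ half_re) (summable_wc Q hU)]
  unfold DSer wc
  refine tsum_congr fun n => ?_
  push_cast
  ring

theorem W_large (r : ℕ) : ∃ C : ℝ, 0 < C ∧ ∀ (Q : Finset ℕ) (τ σ U A : ℝ) (z : Tor), 0 < σ →
    σ ≤ 1 → τ * σ < 1 / 2 → 0 < U →
    (∀ ξ : ℝ, ‖EP Q (1 / 2 - τ * vt σ ξ) z‖ ≤ A * (1 + |ξ|) ^ r) →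
    ‖EP Q (1 / 2) z - W Q τ U z‖ ≤ C / σ * A * U ^ (-σ) := by
  refine ⟨(1 / (2 * Real.pi)) * (((r + 1 + 1).factorial : ℝ) * 2 ^ (r + 1 + 1)) * (Jc + 1), ?_, ?_⟩
  · have := Jc_nonneg
    have := Real.pi_pos
    positivity
  intro Q τ σ U A z hσ hσ1 hτσ hU hA
  have hA0 : 0 ≤ A := by
    have := hA 0
    simp only [abs_zero, add_zero, one_pow, mul_one] at this
    exact (norm_nonneg _).trans this
  rw [W_compl Q hU.le]
  -- the exchange
  set G : ℕ → ℝ → ℂ := fun n ξ => (1 / (2 * Real.pi) : ℝ) * ((((U * (n : ℝ) ^ (-τ) : ℝ)) : ℂ) ^ (-(vt σ ξ)) *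
    Complex.Gamma (vt σ ξ)) * (cq Q (1 / 2) n * stf n z) with hG
  have hre : ∀ ξ, (1 / 2 - τ * vt σ ξ).re = 1 / 2 - τ * σ := by
    intro ξ
    rw [Complex.sub_re, Complex.re_ofReal_mul, vt_re]
    norm_num
  have hGn : ∀ n ξ, G n ξ = ((1 / (2 * Real.pi) : ℝ) * ((U : ℂ) ^ (-(vt σ ξ)) *
      Complex.Gamma (vt σ ξ))) * (cq Q (1 / 2 - τ * vt σ ξ) n * stf n z) := by
    intro n ξ
    rcases eq_or_ne n 0 with rfl | hn
    · simp [hG, cq_zero]
    simp only [hG]
    rw [cpow_split U τ hU n hn, sub_eq_add_neg, cq_add, neg_neg]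
    ring
  have hterm : ∀ n : ℕ, ((Real.exp (-(U * (n : ℝ) ^ (-τ))) : ℝ) : ℂ) *
      (cq Q (1 / 2) n * stf n z) = ∫ ξ, G n ξ := by
    intro n
    rcases eq_or_ne n 0 with rfl | hn
    · simp [hG, cq_zero]
    have hn0 : (0 : ℝ) < n := by exact_mod_cast Nat.pos_of_ne_zero hn
    rw [exp_mellin σ hσ hσ1 _ (by positivity), ← integral_const_mul, ← integral_mul_const]
  have hnorm : ∀ n ξ, ‖G n ξ‖ = (1 / (2 * Real.pi)) * (U ^ (-σ) * ‖Complex.Gamma (vt σ ξ)‖) *
      ‖cq Q (1 / 2 - ((τ * σ : ℝ) : ℂ)) n‖ := by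
    intro n ξ
    rw [hGn, norm_mul, norm_mul, norm_mul, norm_mul, norm_stf, mul_one,
      Complex.norm_cpow_eq_rpow_re_of_pos hU, Complex.neg_re, vt_re, Complex.norm_real,
      Real.norm_of_nonneg (by have := Real.pi_pos; positivity)]
    congr 1
    unfold cq
    split_ifs with h
    · have hn0 : (0 : ℝ) < n := by
        exact_mod_cast Nat.pos_of_ne_zero (Nat.mem_factoredNumbers.1 h).1
      rw [norm_mul, norm_mul, ← Complex.ofReal_natCast, Complex.norm_cpow_eq_rpow_re_of_pos hn0,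
        Complex.norm_cpow_eq_rpow_re_of_pos hn0]
      congr 2
      rw [Complex.neg_re, Complex.neg_re, hre, Complex.sub_re, Complex.ofReal_re]
      norm_num
    · simp
  have hGc : ∀ n, Integrable (G n) := by
    intro n
    have hc : Continuous (G n) := by
      rcases eq_or_ne n 0 with rfl | hn
      · have : G 0 = fun _ => 0 := by funext ξ; simp [hG, cq_zero]
        rw [this]; exact continuous_const
      have hn0 : (0 : ℝ) < n := by exact_mod_cast Nat.pos_of_ne_zero hn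
      have hne : ((U * (n : ℝ) ^ (-τ) : ℝ) : ℂ) ≠ 0 := by
        have : 0 < U * (n : ℝ) ^ (-τ) := by positivity
        exact_mod_cast this.ne'
      simp only [hG]
      refine (continuous_const.mul (Continuous.mul ?_ (continuous_Gamma_vt σ hσ))).mul
        continuous_const
      exact (continuous_vt σ).neg.const_cpow (Or.inl hne)
    refine Integrable.mono' (g := fun ξ => (1 / (2 * Real.pi)) *
      (U ^ (-σ) * ‖Complex.Gamma (vt σ ξ)‖) * ‖cq Q (1 / 2 - ((τ * σ : ℝ) : ℂ)) n‖) ?_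
      hc.aestronglyMeasurable (Eventually.of_forall fun ξ => (hnorm n ξ).le)
    exact (((integrable_Gamma σ hσ hσ1).norm.const_mul _).const_mul _).mul_const _
  have hsum : Summable fun n => ∫ ξ, ‖G n ξ‖ := by
    simp_rw [hnorm]
    simp_rw [integral_mul_const]
    refine Summable.mul_left _ (summable_cq Q _ ?_)
    rw [Complex.sub_re, Complex.ofReal_re]
    norm_num
    linarith
  have hex := integral_tsum_of_summable_integral_norm hGc hsum
  simp_rw [hterm]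
  rw [hex]
  -- the bound
  have hpt : ∀ ξ, ‖∑' n, G n ξ‖ ≤ ((1 / (2 * Real.pi)) * U ^ (-σ) *
      (((r + 1 + 1).factorial : ℝ) * 2 ^ (r + 1 + 1) / σ) * A) * ((1 + |ξ|) ^ 2)⁻¹ := by
    intro ξ
    have e1 : ∑' n, G n ξ = ((1 / (2 * Real.pi) : ℝ) * ((U : ℂ) ^ (-(vt σ ξ)) *
        Complex.Gamma (vt σ ξ))) * EP Q (1 / 2 - τ * vt σ ξ) z := by
      simp_rw [hGn]
      rw [tsum_mul_left, EP_eq Q _ (by rw [hre]; linarith)]
      rfl
    rw [e1, norm_mul, norm_mul, norm_mul, Complex.norm_cpow_eq_rpow_re_of_pos hU,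
      Complex.neg_re, vt_re, Complex.norm_real,
      Real.norm_of_nonneg (by have := Real.pi_pos; positivity)]
    have h1 := gamma_bound (r + 1) (by omega) σ hσ hσ1 ξ
    have h2 := hA ξ
    have hpi := Real.pi_pos
    have hx : 0 < 1 + |ξ| := by positivity
    calc 1 / (2 * Real.pi) * (U ^ (-σ) * ‖Complex.Gamma (vt σ ξ)‖) *
        ‖EP Q (1 / 2 - τ * vt σ ξ) z‖
        ≤ 1 / (2 * Real.pi) * (U ^ (-σ) * (((r + 1 + 1).factorial : ℝ) * 2 ^ (r + 1 + 1) / σ *
          ((1 + |ξ|) ^ (r + 1 + 1))⁻¹)) * (A * (1 + |ξ|) ^ r) := by gcongr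
      _ = _ := by
          have e2 : (1 + |ξ|) ^ (r + 1 + 1) = (1 + |ξ|) ^ r * (1 + |ξ|) ^ 2 := by ring
          rw [e2, mul_inv]
          field_simp
  refine (norm_integral_le_of_norm_le (int_jap.const_mul _)
    (Eventually.of_forall hpt)).trans ?_
  rw [integral_const_mul]
  change _ * Jc ≤ _
  have hJ := Jc_nonneg
  have hpi := Real.pi_pos
  have hX : 0 ≤ (1 / (2 * Real.pi)) * U ^ (-σ) *
      (((r + 1 + 1).factorial : ℝ) * 2 ^ (r + 1 + 1) / σ) * A := by positivity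
  calc _ ≤ (1 / (2 * Real.pi)) * U ^ (-σ) *
      (((r + 1 + 1).factorial : ℝ) * 2 ^ (r + 1 + 1) / σ) * A * (Jc + 1) :=
        mul_le_mul_of_nonneg_left (by linarith) hX
    _ = _ := by ring

end Pool.Agent.H7.DG
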