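import Pool.Agent.H7.DG.G3

set_option autoImplicit false
open MeasureTheory Metric Filter
open scoped ComplexConjugate ENNReal Topology

/-! General local factors: version of H7/PL/L5.lean. -/

namespace Pool.Agent.H7.DG

open Pool.Agent.Helper873.OneVar Pool.Agent.Helper873.Product Pool.Agent.Helper873.Embed
  Pool.Agent.Helper873.Monomial Pool.Agent.H7.PM Pool.Agent.H7.PL

variable [LF]

/-- the exponent -/
noncomputable def qe (k : ℝ) : ℝ := (k * LF.g 1 / 2) ^ 2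

lemma qe_pos {k : ℝ} (hk : 0 < k) : 0 < qe k := by
  have := LF.g1
  unfold qe
  positivity

lemma qe_nonneg (k : ℝ) : 0 ≤ qe k := sq_nonneg _

/-- the constant -/
noncomputable def c1 (k : ℝ) : ℝ := (e1_exp k).choose

lemma c1_nonneg (k : ℝ) : 0 ≤ c1 k := (e1_exp k).choose_spec.1

lemma e1_lower (k : ℝ) (x : ℂ) (hx : ‖x‖ ≤ 3 / 4) : 1 + qe k * ‖x‖ ^ 2 ≤ e1 k x :=
  ((e1_exp k).choose_spec.2 x hx).1

lemma e1_upper (k : ℝ) (x : ℂ) (hx : ‖x‖ ≤ 3 / 4) :
    e1 k x ≤ 1 + qe k * ‖x‖ ^ 2 + c1 k * ‖x‖ ^ 4 := ((e1_exp k).choose_spec.2 x hx).2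

lemma norm_EP_rpow (Q : Finset ℕ) (s : ℂ) (z : Tor) (k : ℝ) :
    ‖EP Q s z‖ ^ k = ∏ j ∈ Q, Real.exp (k * (la (px s j) (zet (z j))).re) := by
  unfold EP
  rw [Complex.norm_exp, ← Real.exp_mul, Complex.re_sum, Finset.sum_mul, Real.exp_sum]
  exact Finset.prod_congr rfl fun j _ => by rw [mul_comm]

lemma mo_EP (k : ℝ) (M : ℕ) (s : ℂ) (hs : 0 < s.re) :
    mo k (EP (Finset.range M) s) = ∏ j ∈ Finset.range M, e1 k (px s j) := by
  have hc : ∀ j, Continuous fun t : UnitAddCircle =>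
      ((Real.exp (k * (la (px s j) (zet t)).re) : ℝ) : ℂ) := fun j =>
    Complex.continuous_ofReal.comp (Real.continuous_exp.comp (continuous_const.mul
      (Complex.continuous_re.comp (continuous_la_zet _ (norm_px_lt s hs j)))))
  have h := integral_prod_range (fun j t => ((Real.exp (k * (la (px s j) (zet t)).re) : ℝ) : ℂ))
    hc M
  have h1 : ((mo k (EP (Finset.range M) s) : ℝ) : ℂ) =
      ((∏ j ∈ Finset.range M, e1 k (px s j) : ℝ) : ℂ) := by
    unfold mo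
    have e0 : ((∫ z, ‖EP (Finset.range M) s z‖ ^ k ∂tor : ℝ) : ℂ) =
        ∫ z, ((‖EP (Finset.range M) s z‖ ^ k : ℝ) : ℂ) ∂tor := integral_ofReal.symm
    rw [e0]
    have e2 : ∀ z, ((‖EP (Finset.range M) s z‖ ^ k : ℝ) : ℂ) =
        ∏ j ∈ Finset.range M, ((Real.exp (k * (la (px s j) (zet (z j))).re) : ℝ) : ℂ) := by
      intro z
      rw [norm_EP_rpow]
      push_cast
      rfl
    simp_rw [e2]
    rw [h, Complex.ofReal_prod]
    refine Finset.prod_congr rfl fun j _ => ?_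
    unfold e1
    exact integral_ofReal
  exact_mod_cast h1

lemma mo_EP_le (k : ℝ) (M : ℕ) (s : ℂ) (hs : 0 < s.re) (hx : ∀ j, ‖px s j‖ ≤ 3 / 4) (A B : ℝ)
    (hA : ∑ j ∈ Finset.range M, ‖px s j‖ ^ 2 ≤ A) (hB : ∑ j ∈ Finset.range M, ‖px s j‖ ^ 4 ≤ B) :
    mo k (EP (Finset.range M) s) ≤ Real.exp (qe k * A + c1 k * B) := by
  rw [mo_EP k M s hs]
  have h1 : ∏ j ∈ Finset.range M, e1 k (px s j) ≤
      ∏ j ∈ Finset.range M, Real.exp (qe k * ‖px s j‖ ^ 2 + c1 k * ‖px s j‖ ^ 4) := by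
    refine Finset.prod_le_prod (fun j _ => (e1_pos k _ (norm_px_lt s hs j)).le) fun j _ => ?_
    have h2 := e1_upper k (px s j) (hx j)
    have h3 := Real.add_one_le_exp (qe k * ‖px s j‖ ^ 2 + c1 k * ‖px s j‖ ^ 4)
    linarith
  refine h1.trans ?_
  rw [← Real.exp_sum]
  refine Real.exp_le_exp.2 ?_
  rw [Finset.sum_add_distrib, ← Finset.mul_sum, ← Finset.mul_sum]
  have := c1_nonneg k
  exact add_le_add (mul_le_mul_of_nonneg_left hA (qe_nonneg k))
    (mul_le_mul_of_nonneg_left hB this)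

/-- **moments of the Euler products** -/
theorem mo_EP_bound (k : ℝ) : ∃ C : ℝ, 0 < C ∧ ∀ (M : ℕ) (η : ℝ), 0 < η → η ≤ 1 / 24 →
    Small M η → ∀ s : ℂ, 1 / 2 - η ≤ s.re →
    mo k (EP (Finset.range M) s) ≤ C * (1 / η) ^ (qe k) := by
  obtain ⟨C1, hC1, h1⟩ := mertens_small
  obtain ⟨C2, hC2, h2⟩ := sum_four
  refine ⟨Real.exp (qe k * (C1 + 8 * (1 + C1)) + c1 k * C2), Real.exp_pos _,
    fun M η hη hη1 hM s hs => ?_⟩
  have hs5 : 5 / 12 ≤ s.re := by linarith
  obtain ⟨h3, h4⟩ := h1 M η hη hη1 hM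
  have hA : ∑ j ∈ Finset.range M, ‖px s j‖ ^ 2 ≤ Real.log (1 / η) + (C1 + 8 * (1 + C1)) := by
    have h5 : ∀ j ∈ Finset.range M, ‖px s j‖ ^ 2 ≤ 1 / (Nat.nth Nat.Prime j : ℝ) +
        8 * η * (Real.log (Nat.nth Nat.Prime j) / (Nat.nth Nat.Prime j : ℝ)) := by
      intro j hj
      have hp := two_le_p j
      have hp0 : (0 : ℝ) < Nat.nth Nat.Prime j := by linarith
      have hl0 : 0 ≤ Real.log (Nat.nth Nat.Prime j) := Real.log_nonneg (by linarith)
      have hl := hM j (Finset.mem_range.1 hj)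
      have hl2 : η * Real.log (Nat.nth Nat.Prime j) ≤ 1 := by
        rw [le_div_iff₀ hη] at hl; linarith
      rw [norm_px, ← Real.rpow_natCast, ← Real.rpow_mul hp0.le]
      calc (Nat.nth Nat.Prime j : ℝ) ^ (-s.re * ((2 : ℕ) : ℝ)) ≤
          (Nat.nth Nat.Prime j : ℝ) ^ (-1 + 2 * η) :=
            Real.rpow_le_rpow_of_exponent_le (by linarith) (by push_cast; linarith)
        _ = (1 / (Nat.nth Nat.Prime j : ℝ)) *
            Real.exp (2 * (η * Real.log (Nat.nth Nat.Prime j))) := by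
            rw [Real.rpow_add hp0, Real.rpow_neg_one, one_div, Real.rpow_def_of_pos hp0]
            congr 2
            ring
        _ ≤ (1 / (Nat.nth Nat.Prime j : ℝ)) *
            (1 + 4 * (2 * (η * Real.log (Nat.nth Nat.Prime j)))) := by
            refine mul_le_mul_of_nonneg_left (exp_le_chord _ ?_ ?_) (by positivity)
            · positivity
            · linarith
        _ = _ := by ring
    refine (Finset.sum_le_sum h5).trans ?_
    rw [Finset.sum_add_distrib, ← Finset.mul_sum]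
    have h6 : 8 * η * ∑ j ∈ Finset.range M, Real.log (Nat.nth Nat.Prime j) /
        (Nat.nth Nat.Prime j : ℝ) ≤ 8 * η * (1 / η + C1) :=
      mul_le_mul_of_nonneg_left h4 (by positivity)
    have h7 : 8 * η * (1 / η + C1) = 8 * (1 + η * C1) := by field_simp
    have h8 : η * C1 ≤ C1 := by nlinarith
    linarith
  refine (mo_EP_le k M s (by linarith) (norm_px_le s hs5) _ _ hA (h2 M s hs5)).trans
    (le_of_eq ?_)
  rw [Real.rpow_def_of_pos (by positivity), ← Real.exp_add]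
  congr 1
  ring

end Pool.Agent.H7.DG
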