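import Pool.Agent.H7.DG.G5

set_option autoImplicit false
open MeasureTheory Metric Filter
open scoped ComplexConjugate ENNReal Topology

/-! General local factors: version of H7/PL/L8.lean. -/

namespace Pool.Agent.H7.DG

open Pool.Agent.Helper873.OneVar Pool.Agent.Helper873.Product Pool.Agent.Helper873.Embed
  Pool.Agent.Helper873.Monomial Pool.Agent.H7.PM Pool.Agent.H7.PL

variable [LF]

lemma EP_congr {Q : Finset ℕ} {s : ℂ} (z z' : Tor) (h : ∀ j ∈ Q, z j = z' j) :
    EP Q s z = EP Q s z' := by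
  unfold EP
  congr 1
  exact Finset.sum_congr rfl fun j hj => by rw [h j hj]

/-- the part with sharp cut of the rough part -/
noncomputable def BB (M K N : ℕ) (z : Tor) : ℂ :=
  EP (Finset.range M) (1 / 2) z * ∑ l ∈ Finset.Icc 1 N, cq (Finset.Ico M K) (1 / 2) l * stf l z

lemma continuous_BB (M K N : ℕ) : Continuous (BB M K N) :=
  (continuous_EP _ _ half_re).mul (continuous_finsetSum _ fun l _ =>
    continuous_const.mul (continuous_stf l))

lemma BB_rot (M K N : ℕ) (z w : Tor) : BB M K N (z + rt M w) =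
    ∑' l : ℕ, cq (Finset.Ico M K) (1 / 2) l * stf l (z + w) *
      (if l ∈ Finset.Icc 1 N then EP (Finset.range M) (1 / 2) z else 0) := by
  rw [tsum_eq_sum (s := Finset.Icc 1 N) (fun l hl => by rw [if_neg hl, mul_zero])]
  unfold BB
  have h1 : EP (Finset.range M) (1 / 2) (z + rt M w) = EP (Finset.range M) (1 / 2) z :=
    EP_congr _ _ fun j hj => by simp [rt, Finset.mem_range.1 hj]
  rw [h1, Finset.mul_sum]
  refine Finset.sum_congr rfl fun l hl => ?_
  rw [if_pos hl]
  by_cases hq : l ∈ Nat.factoredNumbers (PL.sq (Finset.Ico M K))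
  · have h2 : stf l (z + rt M w) = stf l (z + w) :=
      stf_congr hq _ _ fun j hj => by simp [rt, not_lt.2 (Finset.mem_Ico.1 hj).1]
    rw [h2]; ring
  · have h2 : cq (Finset.Ico M K) (1 / 2) l = 0 := by unfold cq; rw [if_neg hq]
    rw [h2]; ring

lemma norm_cq_sq (Q : Finset ℕ) (l : ℕ) : ‖cq Q (1 / 2) l‖ ^ 2 ≤
    if l ∈ Nat.factoredNumbers (PL.sq Q) then 1 / (l : ℝ) else 0 := by
  classical
  unfold cq
  by_cases h : l ∈ Nat.factoredNumbers (PL.sq Q)
  · rw [if_pos h, if_pos h]
    have hl0 : (0 : ℝ) < l := by exact_mod_cast Nat.pos_of_ne_zero (Nat.mem_factoredNumbers.1 h).1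
    rw [norm_mul, mul_pow, ← Complex.ofReal_natCast, Complex.norm_cpow_eq_rpow_re_of_pos hl0,
      ← Real.rpow_natCast ((l : ℝ) ^ _), ← Real.rpow_mul hl0.le]
    have e : (-(1 / 2 : ℂ)).re * ((2 : ℕ) : ℝ) = -1 := by norm_num
    rw [e, Real.rpow_neg_one, one_div, Complex.norm_real, Real.norm_of_nonneg (ag_nonneg l)]
    have h1 := ag_nonneg l
    have h2 := ag_le l
    have h3 : ag l ^ 2 ≤ 1 := pow_le_one₀ h1 h2
    exact mul_le_of_le_one_left (by positivity) h3
  · rw [if_neg h, if_neg h]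
    simp

/-- conditional second moment at one scale -/
lemma one_scale_w {M K N : ℕ} (hMK : M ≤ K) {τ U : ℝ} (hτ : 0 ≤ τ) (hU : 0 ≤ U) (z : Tor)
    (B : ℝ) (hB : ∀ S : Finset ℕ, ∑ l ∈ S, ‖cq (Finset.Ico M K) (1 / 2) l‖ ^ 2 *
      ‖W (Finset.range M) τ (U * (l : ℝ) ^ (-τ)) z -
        (if l ∈ Finset.Icc 1 N then EP (Finset.range M) (1 / 2) z else 0)‖ ^ 2 ≤ B) :
    ∫ w, ‖W (Finset.range K) τ U (z + rt M w) - BB M K N (z + rt M w)‖ ^ 2 ∂tor ≤ B := by
  set a : ℕ → ℂ := fun l => W (Finset.range M) τ (U * (l : ℝ) ^ (-τ)) z -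
        (if l ∈ Finset.Icc 1 N then EP (Finset.range M) (1 / 2) z else 0) with ha
  set A : ℝ := ∑' n, ‖cq (Finset.range M) (1 / 2) n‖ with hA
  have hA0 : 0 ≤ A := tsum_nonneg fun n => norm_nonneg _
  have hWb : ∀ V : ℝ, 0 ≤ V → ‖W (Finset.range M) τ V z‖ ≤ A := by
    intro V hV
    unfold W DSer
    refine tsum_of_norm_bounded (summable_cq (Finset.range M) _ half_re).hasSum fun n => ?_
    rw [norm_mul, norm_stf, mul_one]
    exact norm_wc_le _ hV n
  have hIb : ∀ l : ℕ, ‖(if l ∈ Finset.Icc 1 N then EP (Finset.range M) (1 / 2) z else 0)‖ ≤ A := by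
    intro l
    split_ifs
    · exact norm_EP_le _ _ half_re z
    · simpa using hA0
  have hab : ∀ l, ‖a l‖ ≤ 2 * A := by
    intro l
    have h1 := hWb (U * (l : ℝ) ^ (-τ)) (by positivity)
    have h2 := hIb l
    exact (norm_sub_le _ _).trans (by linarith)
  have hs : Summable fun l => ‖cq (Finset.Ico M K) (1 / 2) l‖ := summable_cq _ _ half_re
  set b : ℕ → ℂ := fun l => cq (Finset.Ico M K) (1 / 2) l * stf l z * a l with hb
  have hbs : Summable fun l => ‖b l‖ := by
    refine Summable.of_nonneg_of_le (fun _ => norm_nonneg _) (fun l => ?_) (hs.mul_right (2 * A))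
    simp only [hb]
    rw [norm_mul, norm_mul, norm_stf, mul_one]
    exact mul_le_mul_of_nonneg_left (hab l) (norm_nonneg _)
  have hpt : ∀ w, W (Finset.range K) τ U (z + rt M w) - BB M K N (z + rt M w) = DSer b w := by
    intro w
    rw [W_rot hMK hτ hU, BB_rot]
    have s1 : Summable fun l : ℕ => cq (Finset.Ico M K) (1 / 2) l *
        stf l (z + w) * W (Finset.range M) τ (U * (l : ℝ) ^ (-τ)) z := by
      refine Summable.of_norm (Summable.of_nonneg_of_le (fun _ => norm_nonneg _) (fun l => ?_)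
        (hs.mul_right A))
      rw [norm_mul, norm_mul, norm_stf, mul_one]
      exact mul_le_mul_of_nonneg_left (hWb _ (by positivity)) (norm_nonneg _)
    have s2 : Summable fun l : ℕ => cq (Finset.Ico M K) (1 / 2) l * stf l (z + w) *
        (if l ∈ Finset.Icc 1 N then EP (Finset.range M) (1 / 2) z else 0) := by
      refine Summable.of_norm (Summable.of_nonneg_of_le (fun _ => norm_nonneg _) (fun l => ?_)
        (hs.mul_right A))
      rw [norm_mul, norm_mul, norm_stf, mul_one]
      exact mul_le_mul_of_nonneg_left (hIb l) (norm_nonneg _)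
    rw [← s1.tsum_sub s2]
    unfold DSer
    refine tsum_congr fun l => ?_
    simp only [hb, ha]
    rw [stf_add]
    ring
  simp_rw [hpt]
  refine pars b (by simp [hb, cq_zero]) hbs B fun S => ?_
  refine le_trans (le_of_eq (Finset.sum_congr rfl fun l _ => ?_)) (hB S)
  simp only [hb]
  rw [norm_mul, norm_mul, norm_stf, mul_one, mul_pow]

/-- second moments from pointwise bounds -/
lemma one_scale_z : ∃ CR : ℝ, 0 < CR ∧ ∀ (M K N : ℕ) (η β : ℝ) (z : Tor) (D : ℝ), 0 < η →
    η ≤ 1 / 24 → Sc M η → M ≤ K → 1 ≤ N → 1 ≤ β → 0 ≤ D →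
    (∀ U : ℝ, 0 < U → U ≤ 1 → ‖W (Finset.range M) (β * η) U z‖ ≤ D * U) →
    (∀ U : ℝ, 1 ≤ U → ‖EP (Finset.range M) (1 / 2) z - W (Finset.range M) (β * η) U z‖ ≤
      D * U ^ (-(1 / (2 * β)))) →
    ∫ w, ‖W (Finset.range K) (β * η) ((N : ℝ) ^ (β * η)) (z + rt M w) -
      BB M K N (z + rt M w)‖ ^ 2 ∂tor ≤ CR * D ^ 2 := by
  obtain ⟨CR, hCR, hR⟩ := rough_sum
  refine ⟨CR, hCR, fun M K N η β z D hη hη1 hSc hMK hN hβ hD h1 h2 => ?_⟩
  classical
  have hβη : 0 ≤ β * η := by positivity
  have hN0 : (0 : ℝ) < N := by exact_mod_cast hN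
  refine one_scale_w hMK hβη (by positivity) z _ fun S => ?_
  set c : ℝ := η * Real.log N with hc
  have hc0 : 0 ≤ c := mul_nonneg hη.le (Real.log_natCast_nonneg N)
  have hterm : ∀ l ∈ S, ‖cq (Finset.Ico M K) (1 / 2) l‖ ^ 2 *
      ‖W (Finset.range M) (β * η) ((N : ℝ) ^ (β * η) * (l : ℝ) ^ (-(β * η))) z -
        (if l ∈ Finset.Icc 1 N then EP (Finset.range M) (1 / 2) z else 0)‖ ^ 2 ≤
      D ^ 2 * (if l ∈ Nat.factoredNumbers (PL.sq (Finset.Ico M K)) then
        1 / (l : ℝ) * Real.exp (-|η * Real.log l - c|) else 0) := by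
    intro l _
    refine (mul_le_mul_of_nonneg_right (norm_cq_sq _ l) (by positivity)).trans ?_
    by_cases hl : l ∈ Nat.factoredNumbers (PL.sq (Finset.Ico M K))
    swap
    · rw [if_neg hl, if_neg hl]; simp
    rw [if_pos hl, if_pos hl]
    have hlne := (Nat.mem_factoredNumbers.1 hl).1
    have hl0 : (0 : ℝ) < l := by exact_mod_cast Nat.pos_of_ne_zero hlne
    have hl1 : 1 ≤ l := Nat.one_le_iff_ne_zero.2 hlne
    have hUe : (N : ℝ) ^ (β * η) * (l : ℝ) ^ (-(β * η)) =
        Real.exp (β * (c - η * Real.log l)) := by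
      rw [Real.rpow_def_of_pos hN0, Real.rpow_def_of_pos hl0, ← Real.exp_add, hc]
      congr 1
      ring
    rw [hUe]
    have key : ‖W (Finset.range M) (β * η) (Real.exp (β * (c - η * Real.log l))) z -
        (if l ∈ Finset.Icc 1 N then EP (Finset.range M) (1 / 2) z else 0)‖ ^ 2 ≤
        D ^ 2 * Real.exp (-|η * Real.log l - c|) := by
      by_cases hlN : l ≤ N
      · have hle : η * Real.log l ≤ c := by
          rw [hc]
          exact mul_le_mul_of_nonneg_left (Real.log_le_log hl0 (by exact_mod_cast hlN)) hη.le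
        rw [if_pos (Finset.mem_Icc.2 ⟨hl1, hlN⟩), norm_sub_rev]
        have h3 := h2 (Real.exp (β * (c - η * Real.log l)))
          (Real.one_le_exp (mul_nonneg (by linarith) (by linarith)))
        have e : (Real.exp (β * (c - η * Real.log l))) ^ (-(1 / (2 * β))) =
            Real.exp (-(c - η * Real.log l) / 2) := by
          rw [← Real.exp_mul]
          congr 1
          have : β ≠ 0 := by linarith
          field_simp
        rw [e] at h3
        calc _ ≤ (D * Real.exp (-(c - η * Real.log l) / 2)) ^ 2 := by gcongr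
          _ = D ^ 2 * Real.exp (-|η * Real.log l - c|) := by
              rw [mul_pow, ← Real.exp_nat_mul, abs_of_nonpos (by linarith)]
              congr 2
              push_cast
              ring
      · have hlt : c ≤ η * Real.log l := by
          rw [hc]
          exact mul_le_mul_of_nonneg_left (Real.log_le_log hN0
            (by exact_mod_cast (not_le.1 hlN).le)) hη.le
        rw [if_neg (fun h => hlN (Finset.mem_Icc.1 h).2), sub_zero]
        have h3 := h1 (Real.exp (β * (c - η * Real.log l))) (Real.exp_pos _)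
          (Real.exp_le_one_iff.2 (mul_nonpos_of_nonneg_of_nonpos (by linarith) (by linarith)))
        calc _ ≤ (D * Real.exp (β * (c - η * Real.log l))) ^ 2 := by gcongr
          _ = D ^ 2 * Real.exp (2 * (β * (c - η * Real.log l))) := by
              rw [mul_pow, ← Real.exp_nat_mul]
              push_cast
              rfl
          _ ≤ D ^ 2 * Real.exp (-|η * Real.log l - c|) := by
              refine mul_le_mul_of_nonneg_left (Real.exp_le_exp.2 ?_) (by positivity)
              rw [abs_of_nonneg (by linarith)]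
              nlinarith
    calc 1 / (l : ℝ) * _ ≤ 1 / (l : ℝ) * (D ^ 2 * Real.exp (-|η * Real.log l - c|)) :=
          mul_le_mul_of_nonneg_left key (by positivity)
      _ = _ := by ring
  refine (Finset.sum_le_sum hterm).trans ?_
  rw [← Finset.mul_sum, mul_comm]
  refine mul_le_mul_of_nonneg_right ?_ (by positivity)
  rw [← Finset.sum_filter]
  refine hR η c hη hη1 hc0 _ fun l hl => ?_
  exact Rg_factored hSc (Finset.mem_filter.1 hl).2

end Pool.Agent.H7.DG
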