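import Pool.Agent.H7.DG.G8
import Pool.Agent.H7.PU.U7

set_option autoImplicit false
open MeasureTheory Metric Filter
open scoped ComplexConjugate ENNReal Topology

/-! General local factors: lower bounds, version of H7/PL/L12.lean and L13.lean. -/

namespace Pool.Agent.H7.DG

open Pool.Agent.Helper873.OneVar Pool.Agent.Helper873.Product Pool.Agent.Helper873.Embed
  Pool.Agent.Helper873.Monomial Pool.Agent.H7.PM Pool.Agent.H7.PL

variable [LF]

/-- the partial sums -/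
noncomputable def SN (N : ℕ) (z : Tor) : ℂ :=
  ∑ n ∈ Finset.Icc 1 N, ((ag n : ℂ) * (n : ℂ) ^ (-(1 / 2) : ℂ)) * stf n z

lemma continuous_SN (N : ℕ) : Continuous (SN N) :=
  continuous_finsetSum _ fun l _ => continuous_const.mul (continuous_stf l)

omit [LF] in
lemma exp_sub_sq_le {y : ℝ} (hy : 0 ≤ y) : Real.exp (y - y ^ 2) ≤ 1 + y := by
  have h4 : y - y ^ 2 < 1 := by nlinarith [sq_nonneg (y - 1 / 2)]
  have h1 : Real.exp (y - y ^ 2) ≤ 1 / (1 - (y - y ^ 2)) := by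
    rw [le_div_iff₀ (by linarith)]
    have h2 := Real.add_one_le_exp (-(y - y ^ 2))
    have h3 : Real.exp (y - y ^ 2) * Real.exp (-(y - y ^ 2)) = 1 := by
      rw [← Real.exp_add]; simp
    calc Real.exp (y - y ^ 2) * (1 - (y - y ^ 2)) ≤
        Real.exp (y - y ^ 2) * Real.exp (-(y - y ^ 2)) :=
          mul_le_mul_of_nonneg_left (by linarith) (Real.exp_pos _).le
      _ = 1 := h3
  refine h1.trans ?_
  rw [div_le_iff₀ (by linarith)]
  nlinarith [pow_nonneg hy 3]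

/-- lower bound for the local factor -/
lemma e1_lo (k : ℝ) (j : ℕ) :
    Real.exp (qe k * (1 / (Nat.nth Nat.Prime j : ℝ)) -
      qe k ^ 2 * (1 / (Nat.nth Nat.Prime j : ℝ)) ^ 2) ≤ e1 k (px (1 / 2) j) := by
  have hx : ‖px (1 / 2) j‖ ≤ 3 / 4 := norm_px_le _ (by norm_num) j
  have b1 := e1_lower k (px (1 / 2) j) hx
  rw [norm_px_half] at b1
  have hp := two_le_p j
  have h1 : 0 ≤ qe k * (1 / (Nat.nth Nat.Prime j : ℝ)) := mul_nonneg (qe_nonneg k) (by positivity)
  have h2 := exp_sub_sq_le h1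
  rw [mul_pow] at h2
  exact h2.trans b1

/-- **averaging out the large primes** -/
theorem mo_contract {k : ℝ} (hk : 0 < k) (M N : ℕ) : mo k (SK M N) ≤ mo k (SN N) := by
  classical
  have hc := continuous_SN N
  have hcj : Continuous fun q : Tor × UnitAddCircle => ‖SN N (q.1 + ra M q.2)‖ ^ k :=
    (hc.comp (continuous_fst.add ((continuous_ra M).comp continuous_snd))).norm.rpow_const
      fun _ => Or.inr hk.le
  have h1 : ∀ t : UnitAddCircle, ∫ z, ‖SN N (z + ra M t)‖ ^ k ∂tor = mo k (SN N) := fun t =>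
    int_add (ra M t) (fun z => ‖SN N z‖ ^ k) (continuous_norm_rpow hc hk.le)
  have h2 : mo k (SN N) = ∫ t, ∫ z, ‖SN N (z + ra M t)‖ ^ k ∂tor ∂cir := by
    simp_rw [h1]
    simp
  have h3 : ∫ t, ∫ z, ‖SN N (z + ra M t)‖ ^ k ∂tor ∂cir =
      ∫ z, ∫ t, ‖SN N (z + ra M t)‖ ^ k ∂cir ∂tor := by
    have h4 : Integrable (fun q : Tor × UnitAddCircle => ‖SN N (q.1 + ra M q.2)‖ ^ k)
        (tor.prod cir) :=
      hcj.integrable_of_hasCompactSupport (HasCompactSupport.of_compactSpace _)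
    exact (integral_integral_swap (f := fun z t => ‖SN N (z + ra M t)‖ ^ k) h4).symm
  rw [h2, h3]
  have hint : Integrable (fun z => ∫ t, ‖SN N (z + ra M t)‖ ^ k ∂cir) tor := by
    have h4 : Integrable (fun q : Tor × UnitAddCircle => ‖SN N (q.1 + ra M q.2)‖ ^ k)
        (tor.prod cir) :=
      hcj.integrable_of_hasCompactSupport (HasCompactSupport.of_compactSpace _)
    exact h4.integral_prod_left
  unfold mo
  refine integral_mono (integrable_tor' (continuous_norm_rpow (continuous_SK M N) hk.le)) hint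
    fun z => ?_
  simp only
  set g : Polynomial ℂ := ∑ n ∈ Finset.Icc 1 N,
    Polynomial.C (((ag n : ℂ) * (n : ℂ) ^ (-(1 / 2) : ℂ)) * stf n z) * Polynomial.X ^ om M n with hg
  have e1 : ∀ t, SN N (z + ra M t) = g.eval (zet t) := by
    intro t
    rw [hg, Polynomial.eval_finsetSum]
    unfold SN
    refine Finset.sum_congr rfl fun n _ => ?_
    rw [Polynomial.eval_mul, Polynomial.eval_C, Polynomial.eval_pow, Polynomial.eval_X, stf_add,
      stf_ra]
    ring
  have e2 : SK M N z = g.eval 0 := by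
    rw [hg, Polynomial.eval_finsetSum]
    unfold SK
    refine Finset.sum_congr rfl fun n hn => ?_
    have hn0 : n ≠ 0 := by have := (Finset.mem_Icc.1 hn).1; omega
    rw [Polynomial.eval_mul, Polynomial.eval_C, Polynomial.eval_pow, Polynomial.eval_X]
    unfold cq
    by_cases h : n ∈ Nat.factoredNumbers (PL.sq (Finset.range M))
    · rw [if_pos h, (om_eq_zero hn0).2 h, pow_zero, mul_one]
    · rw [if_neg h, zero_pow (fun h' => h ((om_eq_zero hn0).1 h')), mul_zero, zero_mul]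
  simp_rw [e1]
  rw [e2]
  exact poly_mean g k hk

lemma mo_EP_lower {k : ℝ} (hk : 0 < k) (hk1 : k ≤ 1) : ∃ c : ℝ, 0 < c ∧
    ∀ (M : ℕ) (η : ℝ), 0 < η → η ≤ 1 / 24 → Sc M η →
    c * (1 / η) ^ (qe k) ≤ mo k (EP (Finset.range M) (1 / 2)) := by
  obtain ⟨C, hC, h⟩ := mertens_lower
  have hs2 : Summable fun j : ℕ => 1 / ((j + 1 : ℕ) : ℝ) ^ 2 :=
    (summable_nat_add_iff 1).2 (Real.summable_one_div_nat_pow.2 one_lt_two)
  set T := ∑' j : ℕ, 1 / ((j + 1 : ℕ) : ℝ) ^ 2 with hT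
  have hT0 : 0 ≤ T := tsum_nonneg fun n => by positivity
  refine ⟨Real.exp (-(qe k * C + qe k ^ 2 * T)), Real.exp_pos _,
    fun M η hη hη1 hSc => ?_⟩
  rw [mo_EP k M _ half_re]
  have h1 : ∏ j ∈ Finset.range M, Real.exp (qe k * (1 / (Nat.nth Nat.Prime j : ℝ)) -
      qe k ^ 2 * (1 / (Nat.nth Nat.Prime j : ℝ)) ^ 2) ≤
      ∏ j ∈ Finset.range M, e1 k (px (1 / 2) j) :=
    Finset.prod_le_prod (fun j _ => (Real.exp_pos _).le) fun j _ => e1_lo k j
  refine le_trans ?_ h1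
  rw [← Real.exp_sum, Finset.sum_sub_distrib, ← Finset.mul_sum, ← Finset.mul_sum,
    Real.rpow_def_of_pos (by positivity), ← Real.exp_add]
  refine Real.exp_le_exp.2 ?_
  have h2 := h M η hη hη1 hSc
  have h3 : ∑ j ∈ Finset.range M, (1 / (Nat.nth Nat.Prime j : ℝ)) ^ 2 ≤ T := by
    refine (Finset.sum_le_sum fun j _ => ?_).trans
      (hs2.sum_le_tsum (Finset.range M) fun j _ => by positivity)
    rw [one_div_pow]
    have hj : ((j + 1 : ℕ) : ℝ) ≤ (Nat.nth Nat.Prime j : ℝ) := by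
      have := Nat.add_two_le_nth_prime j
      exact_mod_cast (by omega : j + 1 ≤ Nat.nth Nat.Prime j)
    exact one_div_le_one_div_of_le (by positivity) (by gcongr)
  have h4 : qe k * (Real.log (1 / η) - C) ≤
      qe k * ∑ j ∈ Finset.range M, 1 / (Nat.nth Nat.Prime j : ℝ) :=
    mul_le_mul_of_nonneg_left h2 (qe_nonneg k)
  have h5 : qe k ^ 2 * ∑ j ∈ Finset.range M, (1 / (Nat.nth Nat.Prime j : ℝ)) ^ 2 ≤
      qe k ^ 2 * T := mul_le_mul_of_nonneg_left h3 (by positivity)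
  linarith

/-- **lower bound for the moments of the partial sums** -/
theorem SN_lower {k : ℝ} (hk : 0 < k) (hk1 : k ≤ 1) : ∃ c : ℝ, 0 < c ∧
    ∀ᶠ N in atTop, c * (dl N)⁻¹ ^ (qe k) ≤ mo k (SN N) := by
  obtain ⟨c0, hc0, hlow⟩ := mo_EP_lower hk hk1
  obtain ⟨C1, hC1, hall⟩ := all_scales hk hk1
  obtain ⟨C2, r, hC2, htail⟩ := tail_bound' k hk
  obtain ⟨CE, hCE, hE⟩ := mo_EP_bound k
  set q : ℝ := qe k with hq
  have hq0 : 0 < q := qe_pos hk
  set Z2 : ℝ := ∑' j : ℤ, wj j with hZ2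
  have hZ20 : 0 ≤ Z2 := tsum_nonneg fun j => (wj_pos j).le
  -- choice of `B`
  obtain ⟨B, hB1, hB⟩ : ∃ B : ℕ, 1 ≤ B ∧ C1 * (B : ℝ) ^ (-q) ≤ c0 / 4 := by
    have h1 : Tendsto (fun B : ℕ => C1 * (B : ℝ) ^ (-q)) atTop (𝓝 (C1 * 0)) :=
      ((tendsto_rpow_neg_atTop hq0).comp tendsto_natCast_atTop_atTop).const_mul C1
    rw [mul_zero] at h1
    obtain ⟨B, h2, h3⟩ := ((h1.eventually (gt_mem_nhds (by positivity :
      (0 : ℝ) < c0 / 4))).and (eventually_ge_atTop 1)).exists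
    exact ⟨B, h3, h2.le⟩
  have hB0 : (0 : ℝ) < B := by exact_mod_cast hB1
  have hB1' : (1 : ℝ) ≤ B := by exact_mod_cast hB1
  set P : ℝ := C2 * (2 * B) * (1 + B) ^ r with hP
  have hP0 : 0 < P := by positivity
  -- choice of `A`
  obtain ⟨A, hA1, hA⟩ : ∃ A : ℕ, 1 ≤ A ∧
      (P * Real.exp (-((A : ℝ) / 2))) ^ k * (32 * (Z2 * CE)) ≤ c0 / 4 := by
    have h1 : Tendsto (fun A : ℕ => (P * Real.exp (-((A : ℝ) / 2))) ^ k * (32 * (Z2 * CE))) atTop
        (𝓝 ((P * 0) ^ k * (32 * (Z2 * CE)))) := by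
      refine Tendsto.mul_const _ (Tendsto.rpow_const (Tendsto.const_mul _ ?_) (Or.inr hk.le))
      refine Real.tendsto_exp_neg_atTop_nhds_zero.comp ?_
      exact Tendsto.atTop_div_const two_pos tendsto_natCast_atTop_atTop
    rw [mul_zero, Real.zero_rpow hk.ne', zero_mul] at h1
    obtain ⟨A, h2, h3⟩ := ((h1.eventually (gt_mem_nhds (by positivity :
      (0 : ℝ) < c0 / 4))).and (eventually_ge_atTop 1)).exists
    exact ⟨A, h3, h2.le⟩
  have hA0 : (0 : ℝ) < A := by exact_mod_cast hA1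
  have hA1' : (1 : ℝ) ≤ A := by exact_mod_cast hA1
  refine ⟨c0 / 2 * (A : ℝ) ^ (-q), by positivity, ?_⟩
  have h1 : Tendsto (fun N => (A * B : ℝ) * dl N) atTop (𝓝 ((A * B : ℝ) * 0)) :=
    dl_tendsto.const_mul _
  rw [mul_zero] at h1
  filter_upwards [h1.eventually (gt_mem_nhds (by norm_num : (0 : ℝ) < 1 / 24)),
    eventually_ge_atTop 2] with N hN hN2
  have hδ := dl_pos hN2
  set ηs : ℝ := A * dl N with hηs
  set ηc : ℝ := A * B * dl N with hηc
  have hηs0 : 0 < ηs := by positivity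
  have hηc0 : 0 < ηc := by positivity
  have hle : ηs ≤ ηc := by
    rw [hηs, hηc]
    have : (A : ℝ) * 1 ≤ A * B := mul_le_mul_of_nonneg_left hB1' hA0.le
    nlinarith
  obtain ⟨K, hK⟩ := exists_Sc ηs
  obtain ⟨M, hM⟩ := exists_Sc ηc
  have hMK : M ≤ K := Sc_le hK hM hηs0 hle
  refine le_trans ?_ (mo_contract hk K N)
  have a1 := hlow K ηs hηs0 (by linarith) hK
  have a2 := hall M K N ηc hηc0 hN.le hM hMK (by omega)
  have cW : Continuous (W (Finset.range K) ηc ((N : ℝ) ^ ηc)) := continuous_W _ (by positivity)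
  have a3 : mo k (fun z => EP (Finset.range K) (1 / 2) z - W (Finset.range K) ηc ((N : ℝ) ^ ηc) z) ≤
      (P * Real.exp (-((A : ℝ) / 2))) ^ k * (32 * (Z2 * (CE * (1 / ηs) ^ q))) := by
    have hV := int_VV (M := K) (η := ηs) (k := k) hηs0 (by linarith) hk.le (CE * (1 / ηs) ^ q)
      (fun s hs => hE K ηs hηs0 (by linarith) hK.small s hs)
    have hpt : ∀ z, ‖EP (Finset.range K) (1 / 2) z - W (Finset.range K) ηc ((N : ℝ) ^ ηc) z‖ ^ k ≤
        (P * Real.exp (-((A : ℝ) / 2))) ^ k * VV K ηs k z := by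
      intro z
      have hVz := VV_nonneg (M := K) (η := ηs) (k := k) z
      have hBe : ηc = B * ηs := by rw [hηc, hηs]; ring
      have h2 := htail K ηs ηc (1 / (2 * B)) ((N : ℝ) ^ ηc) z hηs0 (by linarith) hηc0
        (by positivity) (by rw [div_le_one (by positivity)]; linarith)
        (by rw [hBe]; field_simp) (by positivity)
      have e1 : ηc / ηs = B := by rw [hBe]; field_simp
      have e2 : ((N : ℝ) ^ ηc) ^ (-(1 / (2 * (B : ℝ)))) = Real.exp (-((A : ℝ) / 2)) := by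
        rw [hηc, dl_rpow_exp hN2, ← Real.exp_mul]
        congr 1
        field_simp
      have e3 : C2 / (1 / (2 * (B : ℝ))) = C2 * (2 * B) := by field_simp
      rw [e1, e2, e3] at h2
      have h3 := Real.rpow_le_rpow (norm_nonneg _) h2 hk.le
      refine h3.trans (le_of_eq ?_)
      have e4 : C2 * (2 * B) * (1 + B) ^ r * VV K ηs k z ^ (1 / k) * Real.exp (-((A : ℝ) / 2)) =
          (P * Real.exp (-((A : ℝ) / 2))) * VV K ηs k z ^ (1 / k) := by rw [hP]; ring
      rw [e4, Real.mul_rpow (by positivity) (by positivity), ← Real.rpow_mul hVz,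
        one_div_mul_cancel hk.ne', Real.rpow_one]
    have hm : ∫ z, ‖EP (Finset.range K) (1 / 2) z - W (Finset.range K) ηc ((N : ℝ) ^ ηc) z‖ ^ k ∂tor ≤
        ∫ z, (P * Real.exp (-((A : ℝ) / 2))) ^ k * VV K ηs k z ∂tor :=
      integral_mono (integrable_tor' (continuous_norm_rpow
        ((continuous_EP _ _ half_re).sub cW) hk.le)) (integrable_tor' (continuous_const.mul
          (continuous_VV hηs0 (by linarith) hk.le))) hpt
    rw [integral_const_mul] at hm
    exact hm.trans (mul_le_mul_of_nonneg_left hV (by positivity))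
  have t1 := mo_le hk hk1 (continuous_EP (Finset.range K) _ half_re) (continuous_SK K N)
  have t2 := mo_tri hk hk1 (continuous_EP (Finset.range K) _ half_re) (continuous_SK K N) cW
  rw [mo_sub_comm k (W (Finset.range K) ηc ((N : ℝ) ^ ηc))] at t2
  -- sizes
  set L : ℝ := (dl N)⁻¹ ^ q with hL
  have hL0 : 0 < L := by positivity
  have s1 : (1 / ηs) ^ q = (A : ℝ) ^ (-q) * L := by
    rw [hηs, one_div, mul_inv, Real.mul_rpow (by positivity) (by positivity),
      Real.inv_rpow hA0.le, Real.rpow_neg hA0.le]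
  have s2 : (1 / ηc) ^ q = (B : ℝ) ^ (-q) * ((A : ℝ) ^ (-q) * L) := by
    rw [hηc, one_div, mul_inv, mul_inv, Real.mul_rpow (by positivity) (by positivity),
      Real.mul_rpow (by positivity) (by positivity),
      Real.inv_rpow hA0.le, Real.inv_rpow hB0.le, Real.rpow_neg hA0.le, Real.rpow_neg hB0.le]
    ring
  rw [s1] at a1 a3
  rw [s2] at a2
  set Y : ℝ := (A : ℝ) ^ (-q) * L with hY
  have hY0 : 0 < Y := by positivity
  have a2' : C1 * ((B : ℝ) ^ (-q) * Y) ≤ c0 / 4 * Y := by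
    calc C1 * ((B : ℝ) ^ (-q) * Y) = C1 * (B : ℝ) ^ (-q) * Y := by ring
      _ ≤ _ := mul_le_mul_of_nonneg_right hB hY0.le
  have a3' : (P * Real.exp (-((A : ℝ) / 2))) ^ k * (32 * (Z2 * (CE * Y))) ≤ c0 / 4 * Y := by
    calc _ = (P * Real.exp (-((A : ℝ) / 2))) ^ k * (32 * (Z2 * CE)) * Y := by ring
      _ ≤ _ := mul_le_mul_of_nonneg_right hA hY0.le
  calc c0 / 2 * (A : ℝ) ^ (-q) * L = c0 * Y - c0 / 4 * Y - c0 / 4 * Y := by rw [hY]; ring
    _ ≤ mo k (SK K N) := by linarith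

end Pool.Agent.H7.DG
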